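import Pool.Agent.X308.W.Final2

/-!
# All extensions of degree `n`: comparison of the counts over `k` and over its extensions
-/

set_option autoImplicit false

namespace Pool.Agent.X308.W

open NumberField

/-- The extensions of degree `n` of `K` inside the algebraic closure of `K` whose absolute
discriminant has absolute value at most `X`. -/
def Fields (K : Type) [Field K] (n : ℕ) (X : ℝ) : Set (IntermediateField K (AlgebraicClosure K)) :=
  {L | Module.finrank K L = n ∧ ∃ h : NumberField L, ((|@NumberField.discr L _ h| : ℤ) : ℝ) ≤ X}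

/-- The towers `k ⊆ K ⊆ L` in the algebraic closure of `k` with `[K : k] = m`, `[L : K] = n` and
`|d_L| ≤ X`. -/
def Towers (k : Type) [Field k] (m n : ℕ) (X : ℝ) :
    Set (IntermediateField k (AlgebraicClosure k) × IntermediateField k (AlgebraicClosure k)) :=
  {P | ∃ h : P.1 ≤ P.2, Module.finrank k P.1 = m ∧
    Module.finrank P.1 (IntermediateField.extendScalars h) = n ∧
    ∃ h : NumberField P.2, ((|@NumberField.discr P.2 _ h| : ℤ) : ℝ) ≤ X}

section

variable (k : Type) [Field k] [NumberField k]

theorem finite_Fields (n : ℕ) (X : ℝ) : (Fields k n X).Finite :=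
  (finite_disc' k _).subset fun _ hL => hL.2

/-- The number of intermediate fields of an extension of degree `d` is at most `2 ^ d`. -/
theorem subfields' (L : IntermediateField k (AlgebraicClosure k)) [FiniteDimensional k L] :
    {K : IntermediateField k (AlgebraicClosure k) | K ≤ L}.Finite ∧
    {K : IntermediateField k (AlgebraicClosure k) | K ≤ L}.ncard ≤
      2 ^ Module.finrank k L := by
  classical
  have : Normal k (AlgebraicClosure k) := IsAlgClosure.normal k _
  have : IsGalois k (AlgebraicClosure k) := {}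
  let F : IntermediateField k (AlgebraicClosure k) → Set (L →ₐ[k] AlgebraicClosure k) :=
    fun K => {φ | ∀ x : L, (x : AlgebraicClosure k) ∈ K → φ x = x}
  have key : ∀ K K' : IntermediateField k (AlgebraicClosure k), K ≤ L → F K = F K' → K ≤ K' := by
    intro K K' hK hF x hx
    rw [← InfiniteGalois.fixedField_fixingSubgroup K']
    rw [IntermediateField.mem_fixedField_iff]
    intro σ hσ
    have h1 : σ.toAlgHom.comp L.val ∈ F K' := by
      intro y hy
      exact (IntermediateField.mem_fixingSubgroup_iff _ _).1 hσ _ hy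
    rw [← hF] at h1
    exact h1 ⟨x, hK hx⟩ hx
  have hinj : Set.InjOn F {K | K ≤ L} := fun K hK K' hK' h =>
    le_antisymm (key K K' hK h) (key K' K hK' h.symm)
  have hfin : {K : IntermediateField k (AlgebraicClosure k) | K ≤ L}.Finite :=
    Set.Finite.of_finite_image (Set.toFinite _) hinj
  refine ⟨hfin, ?_⟩
  have h2 := Set.ncard_le_ncard_of_injOn F (s := {K | K ≤ L}) (t := Set.univ)
    (fun _ _ => Set.mem_univ _) hinj (Set.toFinite _)
  refine h2.trans ?_
  rw [Set.ncard_univ, Nat.card_eq_fintype_card, Fintype.card_set, AlgHom.card]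

/-- A field in a tower is counted over `k`. -/
theorem towers_snd {m n : ℕ} {X : ℝ} {P : IntermediateField k (AlgebraicClosure k) ×
    IntermediateField k (AlgebraicClosure k)} (hP : P ∈ Towers k m n X) :
    P.2 ∈ Fields k (m * n) X := by
  obtain ⟨h, hm, hn, hL⟩ := hP
  refine ⟨?_, hL⟩
  have h1 := Module.finrank_mul_finrank k P.1 (IntermediateField.extendScalars h)
  rw [hm, hn] at h1
  let r : P.2 ≃ₐ[k] IntermediateField.extendScalars h :=
    { toFun := fun x => ⟨x.1, x.2⟩
      invFun := fun x => ⟨x.1, x.2⟩
      left_inv := fun _ => rfl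
      right_inv := fun _ => rfl
      map_mul' := fun _ _ => rfl
      map_add' := fun _ _ => rfl
      commutes' := fun _ => rfl }
  rw [h1]
  exact r.toLinearEquiv.finrank_eq

theorem towers_finite_card (m n : ℕ) (X : ℝ) : (Towers k m n X).Finite ∧
    (Towers k m n X).ncard ≤ 2 ^ (m * n) * (Fields k (m * n) X).ncard := by
  classical
  have hf := finite_Fields k (m * n) X
  let F : IntermediateField k (AlgebraicClosure k) →
      Set (IntermediateField k (AlgebraicClosure k) × IntermediateField k (AlgebraicClosure k)) :=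
    fun L => (fun K => (K, L)) '' {K | K ≤ L}
  have hF : ∀ L ∈ Fields k (m * n) X, (F L).Finite ∧ (F L).ncard ≤ 2 ^ (m * n) := by
    rintro L ⟨h2, hL, -⟩
    have hfin1 : FiniteDimensional ℚ L := hL.to_finiteDimensional
    have hfin : FiniteDimensional k L := Module.Finite.of_restrictScalars_finite ℚ k L
    obtain ⟨h3, h4⟩ := subfields' k L
    refine ⟨h3.image _, (Set.ncard_image_le h3).trans ?_⟩
    rw [← h2]
    exact h4
  have hsub : Towers k m n X ⊆ ⋃ L ∈ hf.toFinset, F L := by
    intro P hP
    refine Set.mem_biUnion (x := P.2) ?_ ?_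
    · rw [Finset.mem_coe, Set.Finite.mem_toFinset]
      exact towers_snd k hP
    · exact ⟨P.1, hP.1, rfl⟩
  have hfin : (⋃ L ∈ hf.toFinset, F L).Finite :=
    hf.toFinset.finite_toSet.biUnion fun L hL => (hF L (hf.mem_toFinset.1 hL)).1
  refine ⟨hfin.subset hsub, ?_⟩
  refine (Set.ncard_le_ncard hsub hfin).trans ((Finset.set_ncard_biUnion_le _ _).trans ?_)
  refine (Finset.sum_le_card_nsmul _ _ (2 ^ (m * n))
    fun L hL => (hF L (hf.mem_toFinset.1 hL)).2).trans ?_
  rw [smul_eq_mul, ← Set.ncard_eq_toFinset_card _ hf, mul_comm]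

/-- The extensions of degree `n` of an extension `K/k` of degree `m` are extensions of degree `m n`
of `k`. -/
theorem card_le (K : Type) [Field K] [NumberField K] [Algebra k K] {m : ℕ}
    (hm : Module.finrank k K = m) (n : ℕ) (X : ℝ) :
    (Fields K n X).ncard ≤ (Fields k (m * n) X).ncard := by
  have halg : Algebra.IsAlgebraic k K := Algebra.IsAlgebraic.tower_top (K := ℚ) k
  have hac : IsAlgClosure k (AlgebraicClosure K) :=
    ⟨inferInstance, Algebra.IsAlgebraic.trans k K (AlgebraicClosure K)⟩
  let v : AlgebraicClosure K ≃ₐ[k] AlgebraicClosure k :=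
    IsAlgClosure.equiv k (AlgebraicClosure K) (AlgebraicClosure k)
  refine Set.ncard_le_ncard_of_injOn (fun L => (L.restrictScalars k).map v.toAlgHom) ?_ ?_
    (finite_Fields k _ _)
  · rintro L ⟨hn, hL, hX⟩
    let r0 : L ≃ₐ[k] L.restrictScalars k :=
      { toFun := fun x => ⟨x.1, x.2⟩
        invFun := fun x => ⟨x.1, x.2⟩
        left_inv := fun _ => rfl
        right_inv := fun _ => rfl
        map_mul' := fun _ _ => rfl
        map_add' := fun _ _ => rfl
        commutes' := fun _ => rfl }
    let r : L ≃ₐ[k] (L.restrictScalars k).map v.toAlgHom :=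
      r0.trans (IntermediateField.intermediateFieldMap v (L.restrictScalars k))
    have hL' : NumberField ((L.restrictScalars k).map v.toAlgHom) :=
      NumberField.of_ringEquiv _ _ r.toRingEquiv
    refine ⟨?_, hL', ?_⟩
    · have h1 := Module.finrank_mul_finrank k K L
      rw [hm, hn] at h1
      rw [h1]
      exact r.symm.toLinearEquiv.finrank_eq
    · have h3 := NumberField.discr_eq_discr_of_ringEquiv L r.toRingEquiv
      change ((|NumberField.discr ((L.restrictScalars k).map v.toAlgHom)| : ℤ) : ℝ) ≤ _
      rw [← h3]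
      exact hX
  · intro L _ L' _ h
    apply IntermediateField.restrictScalars_injective k
    ext x
    have h1 : v x ∈ (L.restrictScalars k).map v.toAlgHom ↔
        v x ∈ (L'.restrictScalars k).map v.toAlgHom := by
      have : (L.restrictScalars k).map v.toAlgHom = (L'.restrictScalars k).map v.toAlgHom := h
      rw [this]
    constructor
    · intro hx
      obtain ⟨y, hy, hxy⟩ := h1.1 ⟨x, hx, rfl⟩
      have : y = x := v.injective hxy
      rwa [← this]
    · intro hx
      obtain ⟨y, hy, hxy⟩ := h1.2 ⟨x, hx, rfl⟩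
      have : y = x := v.injective hxy
      rwa [← this]

/-- The extensions of `K ⊆ \bar k` counted by `Fields` embed into the slice of the towers. -/
theorem slice_le {m : ℕ} (n : ℕ) (X : ℝ) (K : IntermediateField k (AlgebraicClosure k))
    (hm : Module.finrank k K = m) :
    (Fields K n X).ncard ≤ {P | P ∈ Towers k m n X ∧ P.1 = K}.ncard := by
  have halg : Algebra.IsAlgebraic K (AlgebraicClosure k) :=
    Algebra.IsAlgebraic.tower_top (K := k) K
  have hac : IsAlgClosure K (AlgebraicClosure k) := ⟨inferInstance, halg⟩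
  let v : AlgebraicClosure K ≃ₐ[K] AlgebraicClosure k :=
    IsAlgClosure.equiv K (AlgebraicClosure K) (AlgebraicClosure k)
  refine Set.ncard_le_ncard_of_injOn
    (fun L => (K, (L.map v.toAlgHom).restrictScalars k)) ?_ ?_
    ((towers_finite_card k m n X).1.subset fun P hP => hP.1)
  · rintro L ⟨hn, hL, hX⟩
    have hle : K ≤ (L.map v.toAlgHom).restrictScalars k := fun x hx =>
      (L.map v.toAlgHom).algebraMap_mem ⟨x, hx⟩
    let r : L ≃ₐ[K] L.map v.toAlgHom := IntermediateField.intermediateFieldMap v L
    let r1 : L.map v.toAlgHom ≃+* (L.map v.toAlgHom).restrictScalars k :=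
      { toFun := fun x => ⟨x.1, x.2⟩
        invFun := fun x => ⟨x.1, x.2⟩
        left_inv := fun _ => rfl
        right_inv := fun _ => rfl
        map_mul' := fun _ _ => rfl
        map_add' := fun _ _ => rfl }
    let r2 : L.map v.toAlgHom ≃ₐ[K] IntermediateField.extendScalars hle :=
      { toFun := fun x => ⟨x.1, x.2⟩
        invFun := fun x => ⟨x.1, x.2⟩
        left_inv := fun _ => rfl
        right_inv := fun _ => rfl
        map_mul' := fun _ _ => rfl
        map_add' := fun _ _ => rfl
        commutes' := fun _ => rfl }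
    have hL' : NumberField ((L.map v.toAlgHom).restrictScalars k) :=
      NumberField.of_ringEquiv _ _ (r.toRingEquiv.trans r1)
    refine ⟨⟨hle, hm, ?_, hL', ?_⟩, rfl⟩
    · rw [← hn]
      exact (r.trans r2).symm.toLinearEquiv.finrank_eq
    · have h3 := NumberField.discr_eq_discr_of_ringEquiv L (r.toRingEquiv.trans r1)
      change ((|NumberField.discr ((L.map v.toAlgHom).restrictScalars k)| : ℤ) : ℝ) ≤ _
      rw [← h3]
      exact hX
  · intro L _ L' _ h
    have h0 : (L.map v.toAlgHom).restrictScalars k = (L'.map v.toAlgHom).restrictScalars k :=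
      congrArg Prod.snd h
    have h2 : L.map v.toAlgHom = L'.map v.toAlgHom :=
      IntermediateField.restrictScalars_injective k h0
    ext x
    have h1 : v x ∈ L.map v.toAlgHom ↔ v x ∈ L'.map v.toAlgHom := by rw [h2]
    constructor
    · intro hx
      obtain ⟨y, hy, hxy⟩ := h1.1 ⟨x, hx, rfl⟩
      have : y = x := v.injective hxy
      rwa [← this]
    · intro hx
      obtain ⟨y, hy, hxy⟩ := h1.2 ⟨x, hx, rfl⟩
      have : y = x := v.injective hxy
      rwa [← this]

theorem sum_slice (m n : ℕ) (X : ℝ) (T : Finset (IntermediateField k (AlgebraicClosure k))) :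
    ∑ K ∈ T, {P | P ∈ Towers k m n X ∧ P.1 = K}.ncard =
      {P | P ∈ Towers k m n X ∧ P.1 ∈ T}.ncard := by
  classical
  induction T using Finset.induction_on with
  | empty => simp
  | insert K T hK ih =>
    rw [Finset.sum_insert hK, ih]
    have hu : {P | P ∈ Towers k m n X ∧ P.1 ∈ insert K T} =
        {P | P ∈ Towers k m n X ∧ P.1 = K} ∪ {P | P ∈ Towers k m n X ∧ P.1 ∈ T} := by
      ext P
      simp only [Set.mem_setOf_eq, Finset.mem_insert, Set.mem_union]
      tauto
    have hfin := (towers_finite_card k m n X).1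
    rw [hu, Set.ncard_union_eq _ (hfin.subset fun P hP => hP.1) (hfin.subset fun P hP => hP.1)]
    rw [Set.disjoint_left]
    rintro P ⟨-, hP1⟩ ⟨-, hP2⟩
    exact hK (hP1 ▸ hP2)

/-- **The sum over all `K`.** -/
theorem sum_le (m n : ℕ) (X : ℝ) (T : Finset (IntermediateField k (AlgebraicClosure k)))
    (hT : ∀ K ∈ T, Module.finrank k K = m) :
    ∑ K ∈ T, (Fields K n X).ncard ≤ 2 ^ (m * n) * (Fields k (m * n) X).ncard := by
  calc ∑ K ∈ T, (Fields K n X).ncard
      ≤ ∑ K ∈ T, {P | P ∈ Towers k m n X ∧ P.1 = K}.ncard :=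
        Finset.sum_le_sum fun K hK => slice_le k n X K (hT K hK)
    _ = {P | P ∈ Towers k m n X ∧ P.1 ∈ T}.ncard := sum_slice k m n X T
    _ ≤ (Towers k m n X).ncard :=
        Set.ncard_le_ncard (fun P hP => hP.1) (towers_finite_card k m n X).1
    _ ≤ _ := (towers_finite_card k m n X).2

end

end Pool.Agent.X308.W
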