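import Pool.Agent.X308.W.Count

/-!
# `k`-conjugacy classes of least index in a tower of permutation groups
-/

set_option autoImplicit false

namespace Pool.Agent.X308.W

/-- `ind(G)`: the least index of a nontrivial element of `G`. -/
noncomputable def minInd {d : ℕ} (G : Subgroup (Equiv.Perm (Fin d))) : ℕ :=
  sInf {k : ℕ | ∃ g ∈ G, g ≠ 1 ∧ k = ind g}

/-- `g` and `h` are `K`-conjugate in `G`: `h` is conjugate in `G` to `g ^ a`, where some
`K`-automorphism of the algebraic closure acts on the roots of unity of order dividing `|G|` by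
`ζ ↦ ζ ^ a`. -/
def KConj (K : Type) [Field K] {d : ℕ} (G : Subgroup (Equiv.Perm (Fin d)))
    (g h : Equiv.Perm (Fin d)) : Prop :=
  ∃ (σ : AlgebraicClosure K ≃ₐ[K] AlgebraicClosure K) (a : ℕ),
    (∀ ζ : AlgebraicClosure K, ζ ^ Nat.card G = 1 → σ ζ = ζ ^ a) ∧
    ∃ x ∈ G, h = x * g ^ a * x⁻¹

/-- `β_K(G)`: the number of `K`-conjugacy classes of elements of `G` of least index. -/
noncomputable def β (K : Type) [Field K] {d : ℕ} (G : Subgroup (Equiv.Perm (Fin d))) : ℕ :=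
  Nat.card (Quot fun g h : {g : Equiv.Perm (Fin d) // g ∈ G ∧ g ≠ 1 ∧ ind g = minInd G} =>
    KConj K G g.1 h.1)

section roots

variable (K : Type) [Field K] [CharZero K]

theorem exists_prim (N : ℕ) (hN : N ≠ 0) : ∃ ζ : AlgebraicClosure K, IsPrimitiveRoot ζ N := by
  have : NeZero N := ⟨hN⟩
  have h2 : NeZero (N : K) := ⟨by exact_mod_cast hN⟩
  exact HasEnoughRootsOfUnity.exists_primitiveRoot (AlgebraicClosure K) N

variable {K}

theorem exists_exponent {N : ℕ} (hN : N ≠ 0)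
    (σ : AlgebraicClosure K ≃ₐ[K] AlgebraicClosure K) :
    ∃ a : ℕ, ∀ ζ : AlgebraicClosure K, ζ ^ N = 1 → σ ζ = ζ ^ a := by
  obtain ⟨ζ₀, hζ₀⟩ := exists_prim K N hN
  have : NeZero N := ⟨hN⟩
  obtain ⟨a, -, ha⟩ := hζ₀.eq_pow_of_pow_eq_one (ξ := σ ζ₀) (by
    rw [← map_pow, hζ₀.pow_eq_one, map_one])
  refine ⟨a, fun ζ hζ => ?_⟩
  obtain ⟨j, -, rfl⟩ := hζ₀.eq_pow_of_pow_eq_one hζ
  rw [map_pow, ← ha, ← pow_mul, ← pow_mul, mul_comm]

theorem modEq_of_pow {N a b : ℕ} (hN : N ≠ 0)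
    (h : ∀ ζ : AlgebraicClosure K, ζ ^ N = 1 → ζ ^ a = ζ ^ b) : a ≡ b [MOD N] := by
  obtain ⟨ζ₀, hζ₀⟩ := exists_prim K N hN
  have h1 := h ζ₀ hζ₀.pow_eq_one
  let u : (AlgebraicClosure K)ˣ := (hζ₀.isUnit hN).unit
  have hu : IsPrimitiveRoot u N := by
    rw [← IsPrimitiveRoot.coe_units_iff]
    exact hζ₀
  have h2 : u ^ a = u ^ b := by
    apply Units.ext
    simpa [u] using h1
  rw [hu.eq_orderOf]
  exact pow_eq_pow_iff_modEq.1 h2

end roots

section equiv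

variable {K : Type} [Field K] [CharZero K] {d : ℕ} {G : Subgroup (Equiv.Perm (Fin d))}

theorem card_ne_zero' (G : Subgroup (Equiv.Perm (Fin d))) : Nat.card G ≠ 0 := Nat.card_pos.ne'

theorem pow_card' {g : Equiv.Perm (Fin d)} (hg : g ∈ G) : g ^ Nat.card G = 1 := by
  have h : (⟨g, hg⟩ : G) ^ Nat.card G = 1 := pow_card_eq_one'
  exact congrArg Subtype.val h

omit [CharZero K] in
theorem KConj.refl (g : Equiv.Perm (Fin d)) : KConj K G g g :=
  ⟨AlgEquiv.refl, 1, fun ζ _ => by simp, 1, G.one_mem, by simp⟩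

omit [CharZero K] in
theorem KConj.trans {g h l : Equiv.Perm (Fin d)} (h1 : KConj K G g h) (h2 : KConj K G h l) :
    KConj K G g l := by
  obtain ⟨σ, a, ha, x, hx, rfl⟩ := h1
  obtain ⟨τ, b, hb, y, hy, rfl⟩ := h2
  refine ⟨σ.trans τ, a * b, fun ζ hζ => ?_, y * x, G.mul_mem hy hx, ?_⟩
  · rw [AlgEquiv.trans_apply, ha ζ hζ, map_pow, hb ζ hζ, ← pow_mul, mul_comm]
  · rw [conj_pow, ← pow_mul]
    group

theorem KConj.symm {g h : Equiv.Perm (Fin d)} (hg : g ∈ G) (h1 : KConj K G g h) :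
    KConj K G h g := by
  obtain ⟨σ, a, ha, x, hx, rfl⟩ := h1
  obtain ⟨b, hb⟩ := exists_exponent (card_ne_zero' G) σ.symm
  have hmod : a * b ≡ 1 [MOD Nat.card G] := by
    refine modEq_of_pow (K := K) (card_ne_zero' G) fun ζ hζ => ?_
    have h1 : σ.symm (σ ζ) = ζ := by simp
    have h2 : (σ ζ) ^ Nat.card G = 1 := by rw [← map_pow, hζ, map_one]
    rw [pow_one, pow_mul, ← ha ζ hζ, ← hb _ h2, h1]
  refine ⟨σ.symm, b, hb, x⁻¹, G.inv_mem hx, ?_⟩
  have h3 : g ^ (a * b) = g := by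
    have h4 : orderOf g ∣ Nat.card G := orderOf_dvd_of_pow_eq_one (pow_card' hg)
    have h5 : g ^ (a * b) = g ^ 1 := pow_eq_pow_iff_modEq.2 (hmod.of_dvd h4)
    simpa using h5
  rw [conj_pow, ← pow_mul, h3]
  group

/-- Equality of classes. -/
theorem mk_eq_iff (g h : {g : Equiv.Perm (Fin d) // g ∈ G ∧ g ≠ 1 ∧ ind g = minInd G}) :
    (Quot.mk (fun g h : {g : Equiv.Perm (Fin d) // g ∈ G ∧ g ≠ 1 ∧ ind g = minInd G} =>
      KConj K G g.1 h.1) g = Quot.mk _ h) ↔ KConj K G g.1 h.1 := by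
  constructor
  · intro hq
    have he : Equivalence (fun g h : {g : Equiv.Perm (Fin d) //
        g ∈ G ∧ g ≠ 1 ∧ ind g = minInd G} => KConj K G g.1 h.1) :=
      ⟨fun g => KConj.refl g.1, fun {g _} h => KConj.symm g.2.1 h, fun h1 h2 => h1.trans h2⟩
    exact (he.eqvGen_iff).1 (Quot.eqvGen_exact hq)
  · exact fun h => Quot.sound h

/-- There are more classes over a larger field. -/
theorem β_mono (L : Type) [Field L] [CharZero L] [Algebra K L] [Algebra.IsAlgebraic K L] :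
    β K G ≤ β L G := by
  have hac : IsAlgClosure K (AlgebraicClosure L) :=
    ⟨inferInstance, Algebra.IsAlgebraic.trans K L (AlgebraicClosure L)⟩
  let v : AlgebraicClosure L ≃ₐ[K] AlgebraicClosure K :=
    IsAlgClosure.equiv K (AlgebraicClosure L) (AlgebraicClosure K)
  have key : ∀ g h : Equiv.Perm (Fin d), KConj L G g h → KConj K G g h := by
    rintro g h ⟨σ, a, ha, hx⟩
    refine ⟨(v.symm.trans (σ.restrictScalars K)).trans v, a, fun ζ hζ => ?_, hx⟩
    have h1 : (v.symm ζ) ^ Nat.card G = 1 := by rw [← map_pow, hζ, map_one]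
    change v (σ (v.symm ζ)) = ζ ^ a
    rw [ha _ h1, map_pow]
    simp
  unfold β
  refine Nat.card_le_card_of_surjective
    (Quot.map id (fun g h => key g.1 h.1)) ?_
  intro q
  obtain ⟨g, rfl⟩ := Quot.exists_rep q
  exact ⟨Quot.mk _ g, rfl⟩

end equiv

end Pool.Agent.X308.W
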