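import Pool.Agent.X308.W.Gal

/-!
# Counting fields over number fields and over the rational numbers
-/

set_option autoImplicit false

namespace Pool.Agent.X308.W

open NumberField

/-- `a(G) = 1 / min ind(g)`, the minimum over the `g ≠ 1` in `G`. -/
noncomputable def a {n : ℕ} (G : Subgroup (Equiv.Perm (Fin n))) : ℝ :=
  1 / (sInf {j : ℕ | ∃ g ∈ G, g ≠ 1 ∧ j = ind g} : ℕ)

/-- `G` is a transitive group. -/
def Transitive {n : ℕ} (G : Subgroup (Equiv.Perm (Fin n))) : Prop := ∀ i j, ∃ g ∈ G, g i = j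

/-- The fields `L` between `K` and its algebraic closure, of degree `n` and with group `G` over `K`,
whose relative discriminant has norm at most `X` (that is, `|d_L| ≤ X |d_K| ^ n`). -/
def fields (K : Type) [Field K] [NumberField K] {n : ℕ} (G : Subgroup (Equiv.Perm (Fin n)))
    (X : ℝ) : Set (IntermediateField K (AlgebraicClosure K)) :=
  {L | Module.finrank K L = n ∧ HasGroup K L (AlgebraicClosure K) G ∧
    ∃ h : NumberField L, ((|@NumberField.discr L _ h| : ℤ) : ℝ) ≤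
      X * ((|NumberField.discr K| : ℤ) : ℝ) ^ n}

/-- `N_{n,K}(X; G)`. -/
noncomputable def N (K : Type) [Field K] [NumberField K] {n : ℕ}
    (G : Subgroup (Equiv.Perm (Fin n))) (X : ℝ) : ℕ := (fields K G X).ncard

/-- The upper half of the weak form of Malle's conjecture for `K` and `G`. -/
def UpperHalf (K : Type) [Field K] [NumberField K] {n : ℕ}
    (G : Subgroup (Equiv.Perm (Fin n))) : Prop :=
  ∀ ε : ℝ, 0 < ε → ∃ c : ℝ, 0 < c ∧ ∃ X₀ : ℝ, ∀ X : ℝ, X₀ ≤ X → (N K G X : ℝ) < c * X ^ (a G + ε)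

/-- The towers `ℚ ⊆ K ⊆ L` in the algebraic closure of `ℚ` with groups `A ≤ S_m` of `K` over `ℚ` and
`G ≤ S_n` of `L` over `K`, and `|d_L| ≤ X`. -/
def towers {m n : ℕ} (A : Subgroup (Equiv.Perm (Fin m))) (G : Subgroup (Equiv.Perm (Fin n)))
    (X : ℝ) : Set (IntermediateField ℚ (AlgebraicClosure ℚ) ×
      IntermediateField ℚ (AlgebraicClosure ℚ)) :=
  {P | ∃ h : P.1 ≤ P.2, Module.finrank ℚ P.1 = m ∧ HasGroup ℚ P.1 (AlgebraicClosure ℚ) A ∧
    Module.finrank P.1 (IntermediateField.extendScalars h) = n ∧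
    HasGroup P.1 (IntermediateField.extendScalars h) (AlgebraicClosure ℚ) G ∧
    ∃ h : NumberField P.2, ((|@NumberField.discr P.2 _ h| : ℤ) : ℝ) ≤ X}

section groups

theorem ind_pos {n : ℕ} {g : Equiv.Perm (Fin n)} (h : g ≠ 1) : 0 < ind g := by
  have : ∃ x, g x ≠ x := by
    by_contra hall
    push Not at hall
    exact h (Equiv.ext hall)
  obtain ⟨x, hx⟩ := this
  have h2 := card_le_ind g {x} (by simpa using hx)
  rw [Finset.card_singleton] at h2
  omega

theorem set_nonempty {n : ℕ} {G : Subgroup (Equiv.Perm (Fin n))} (hn : 2 ≤ n)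
    (hG : Transitive G) : {j : ℕ | ∃ g ∈ G, g ≠ 1 ∧ j = ind g}.Nonempty := by
  obtain ⟨g, hg, h⟩ := hG ⟨0, by omega⟩ ⟨1, by omega⟩
  refine ⟨ind g, g, hg, ?_, rfl⟩
  rintro rfl
  simp at h

theorem a_pos {n : ℕ} {G : Subgroup (Equiv.Perm (Fin n))} (hn : 2 ≤ n) (hG : Transitive G) :
    0 < a G := by
  obtain ⟨g, -, hg1, hg⟩ := Nat.sInf_mem (set_nonempty hn hG)
  have := ind_pos hg1
  unfold a
  rw [hg]
  positivity

theorem a_le {m n d : ℕ} {A : Subgroup (Equiv.Perm (Fin m))} {G : Subgroup (Equiv.Perm (Fin n))}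
    {H : Subgroup (Equiv.Perm (Fin d))} (hn : 2 ≤ n) (hd : 2 ≤ d) (hG : Transitive G)
    (hH : Transitive H) (h : InWreath A G H) : a H ≤ a G := by
  obtain ⟨g, hg, hg1, hg2⟩ := Nat.sInf_mem (set_nonempty hn hG)
  obtain ⟨π, hπ, hπ1, hπ2⟩ := Nat.sInf_mem (set_nonempty hd hH)
  have h1 : sInf {j : ℕ | ∃ g ∈ G, g ≠ 1 ∧ j = ind g} ≤ ind π := by
    refine le_ind_of_inWreath h (fun g' hg' hg1' => Nat.sInf_le
      (show ind g' ∈ {j : ℕ | ∃ g ∈ G, g ≠ 1 ∧ j = ind g} from ⟨g', hg', hg1', rfl⟩)) ?_ hπ hπ1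
    rw [hg2]
    have := ind_lt g (by simp; omega)
    simp at this
    omega
  have h2 : 0 < sInf {j : ℕ | ∃ g ∈ G, g ≠ 1 ∧ j = ind g} := by
    rw [hg2]; exact ind_pos hg1
  unfold a
  rw [hπ2]
  have h3 : (0 : ℝ) < (sInf {j : ℕ | ∃ g ∈ G, g ≠ 1 ∧ j = ind g} : ℕ) := by exact_mod_cast h2
  exact one_div_le_one_div_of_le h3 (by exact_mod_cast h1)

end groups

section finiteness

theorem finite_disc (B : ℝ) : {L : IntermediateField ℚ (AlgebraicClosure ℚ) |
    ∃ h : NumberField L, ((|@NumberField.discr L _ h| : ℤ) : ℝ) ≤ B}.Finite := by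
  have h := NumberField.finite_of_discr_bdd (AlgebraicClosure ℚ) (⌈B⌉₊)
  refine (h.image (fun F => F.1)).subset ?_
  rintro L ⟨hL, hb⟩
  refine ⟨⟨L, hL.to_finiteDimensional⟩, ?_, rfl⟩
  have h1 : ((|@NumberField.discr L _ hL| : ℤ) : ℝ) ≤ ((⌈B⌉₊ : ℤ) : ℝ) :=
    hb.trans (by exact_mod_cast Nat.le_ceil B)
  exact_mod_cast h1

theorem finite_fields {n : ℕ} (G : Subgroup (Equiv.Perm (Fin n))) (X : ℝ) :
    (fields ℚ G X).Finite :=
  (finite_disc _).subset fun _ hL => hL.2.2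

theorem N_mono {n : ℕ} (G : Subgroup (Equiv.Perm (Fin n))) {X Y : ℝ} (h : X ≤ Y) :
    N ℚ G X ≤ N ℚ G Y := by
  refine Set.ncard_le_ncard ?_ (finite_fields G Y)
  rintro L ⟨h1, h2, h3, h4⟩
  refine ⟨h1, h2, h3, h4.trans ?_⟩
  gcongr

/-- The upper half over `ℚ`, for all `X ≥ 1`. -/
theorem UpperHalf.bound {n : ℕ} {G : Subgroup (Equiv.Perm (Fin n))} (h : UpperHalf ℚ G)
    {ε : ℝ} (hε : 0 < ε) :
    ∃ C : ℝ, 0 ≤ C ∧ ∀ X : ℝ, 1 ≤ X → (N ℚ G X : ℝ) ≤ C * X ^ (a G + ε) := by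
  obtain ⟨c, hc, X₀, hX⟩ := h ε hε
  refine ⟨c * (max X₀ 1) ^ (a G + ε), by positivity, fun X hX1 => ?_⟩
  have h1 : X ≤ max X₀ 1 * X := by
    have : (1 : ℝ) ≤ max X₀ 1 := le_max_right _ _
    nlinarith
  have h2 : X₀ ≤ max X₀ 1 * X := by
    have h3 : X₀ ≤ max X₀ 1 := le_max_left _ _
    have h4 : max X₀ 1 ≤ max X₀ 1 * X := by
      have : (0 : ℝ) ≤ max X₀ 1 := by positivity
      nlinarith
    linarith
  have h3 : (N ℚ G X : ℝ) ≤ N ℚ G (max X₀ 1 * X) := by exact_mod_cast N_mono G h1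
  refine h3.trans ((hX _ h2).le.trans ?_)
  rw [Real.mul_rpow (by positivity) (by linarith)]
  rw [mul_assoc]

end finiteness

section fibres

theorem isAlgClosure_gen (k : Type) [Field k] : IsAlgClosure k (AlgebraicClosure k) :=
  inferInstance

instance isAlgClosure_rat : IsAlgClosure ℚ (AlgebraicClosure ℚ) := isAlgClosure_gen ℚ

instance normal_rat : Normal ℚ (AlgebraicClosure ℚ) := IsAlgClosure.normal ℚ _

/-- The number of subfields of a number field of degree `d` is at most `2 ^ d`. -/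
theorem subfields (L : IntermediateField ℚ (AlgebraicClosure ℚ)) [FiniteDimensional ℚ L] :
    {K : IntermediateField ℚ (AlgebraicClosure ℚ) | K ≤ L}.Finite ∧
    {K : IntermediateField ℚ (AlgebraicClosure ℚ) | K ≤ L}.ncard ≤
      2 ^ Module.finrank ℚ L := by
  classical
  have : IsGalois ℚ (AlgebraicClosure ℚ) := {}
  let F : IntermediateField ℚ (AlgebraicClosure ℚ) → Set (L →ₐ[ℚ] AlgebraicClosure ℚ) :=
    fun K => {φ | ∀ x : L, (x : AlgebraicClosure ℚ) ∈ K → φ x = x}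
  have key : ∀ K K' : IntermediateField ℚ (AlgebraicClosure ℚ), K ≤ L → F K = F K' → K ≤ K' := by
    intro K K' hK hF x hx
    rw [← InfiniteGalois.fixedField_fixingSubgroup K']
    rw [IntermediateField.mem_fixedField_iff]
    intro σ hσ
    have h1 : σ.toAlgHom.comp L.val ∈ F K' := by
      intro y hy
      exact (IntermediateField.mem_fixingSubgroup_iff _ _).1 hσ _ hy
    rw [← hF] at h1
    exact h1 ⟨x, hK hx⟩ hx
  have hinj : Set.InjOn F {K | K ≤ L} := fun K hK K' hK' h =>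
    le_antisymm (key K K' hK h) (key K' K hK' h.symm)
  have hfin : {K : IntermediateField ℚ (AlgebraicClosure ℚ) | K ≤ L}.Finite :=
    Set.Finite.of_finite_image (Set.toFinite _) hinj
  refine ⟨hfin, ?_⟩
  have h2 := Set.ncard_le_ncard_of_injOn F (s := {K | K ≤ L}) (t := Set.univ)
    (fun _ _ => Set.mem_univ _) hinj (Set.toFinite _)
  refine h2.trans ?_
  rw [Set.ncard_univ, Nat.card_eq_fintype_card, Fintype.card_set, AlgHom.card]

end fibres

end Pool.Agent.X308.W
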