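import Pool.Agent.X308.W.Main

/-!
# The uniform upper bounds
-/

set_option autoImplicit false

namespace Pool.Agent.X308.W

open NumberField

section

variable {m n : ℕ} (A : Subgroup (Equiv.Perm (Fin m))) (G : Subgroup (Equiv.Perm (Fin n)))

/-- All fields of degree `m n` over `ℚ` with group inside `G ≀ A` and discriminant at most `Y`. -/
def total (Y : ℝ) : Set (IntermediateField ℚ (AlgebraicClosure ℚ)) :=
  {L | ∃ H : Subgroup (Equiv.Perm (Fin (m * n))), (Transitive H ∧ InWreath A G H) ∧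
    L ∈ fields ℚ H Y}

variable {A G}

theorem total_bound (hn : 2 ≤ n) (hm : 1 ≤ m) (hG : Transitive G)
    (h : ∀ H : Subgroup (Equiv.Perm (Fin (m * n))), Transitive H → InWreath A G H →
      UpperHalf ℚ H) {ε : ℝ} (hε : 0 < ε) :
    ∃ C : ℝ, 0 ≤ C ∧ ∀ Y : ℝ, 1 ≤ Y → (total A G Y).Finite ∧
      ((total A G Y).ncard : ℝ) ≤ C * Y ^ (a G + ε) := by
  classical
  let S : Finset (Subgroup (Equiv.Perm (Fin (m * n)))) :=
    (Set.toFinite {H : Subgroup (Equiv.Perm (Fin (m * n))) |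
      Transitive H ∧ InWreath A G H}).toFinset
  have hS : ∀ H, H ∈ S ↔ Transitive H ∧ InWreath A G H := by
    intro H
    simp [S]
  have hb : ∀ H : Subgroup (Equiv.Perm (Fin (m * n))), ∃ C : ℝ, 0 ≤ C ∧
      (H ∈ S → ∀ Y : ℝ, 1 ≤ Y → (N ℚ H Y : ℝ) ≤ C * Y ^ (a H + ε)) := by
    intro H
    by_cases hH : H ∈ S
    · obtain ⟨C, hC, hY⟩ := (h H ((hS H).1 hH).1 ((hS H).1 hH).2).bound hε
      exact ⟨C, hC, fun _ => hY⟩
    · exact ⟨0, le_refl _, fun h => absurd h hH⟩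
  choose C hC hCY using hb
  refine ⟨∑ H ∈ S, C H, Finset.sum_nonneg fun H _ => hC H, fun Y hY => ?_⟩
  have hT : total A G Y = ⋃ H ∈ S, fields ℚ H Y := by
    refine Set.ext fun L => ⟨?_, ?_⟩
    · rintro ⟨H, hH, hL⟩
      exact Set.mem_iUnion₂.2 ⟨H, (hS H).2 hH, hL⟩
    · intro hL
      obtain ⟨H, hH, hL⟩ := Set.mem_iUnion₂.1 hL
      exact ⟨H, (hS H).1 hH, hL⟩
  have hfin : (total A G Y).Finite := by
    rw [hT]
    exact S.finite_toSet.biUnion fun H _ => finite_fields H Y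
  refine ⟨hfin, ?_⟩
  have h1 : (total A G Y).ncard ≤ ∑ H ∈ S, N ℚ H Y := by
    rw [hT]
    exact S.set_ncard_biUnion_le _
  calc ((total A G Y).ncard : ℝ) ≤ ((∑ H ∈ S, N ℚ H Y : ℕ) : ℝ) := by exact_mod_cast h1
    _ = ∑ H ∈ S, (N ℚ H Y : ℝ) := by push_cast; rfl
    _ ≤ ∑ H ∈ S, C H * Y ^ (a G + ε) := by
        refine Finset.sum_le_sum fun H hH => (hCY H hH Y hY).trans ?_
        refine mul_le_mul_of_nonneg_left ?_ (hC H)
        refine Real.rpow_le_rpow_of_exponent_le hY ?_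
        have h2 := a_le hn (d := m * n) (by nlinarith) hG ((hS H).1 hH).1 ((hS H).1 hH).2
        linarith
    _ = (∑ H ∈ S, C H) * Y ^ (a G + ε) := by rw [Finset.sum_mul]

theorem one_le_discr (K : Type) [Field K] [NumberField K] :
    (1 : ℝ) ≤ ((|NumberField.discr K| : ℤ) : ℝ) := by
  have h := Int.one_le_abs (NumberField.discr_ne_zero K)
  exact_mod_cast h

/-- **The uniform bound.** -/
theorem uniform (hn : 2 ≤ n) (hm : 1 ≤ m) (hG : Transitive G)
    (h : ∀ H : Subgroup (Equiv.Perm (Fin (m * n))), Transitive H → InWreath A G H →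
      UpperHalf ℚ H) {ε : ℝ} (hε : 0 < ε) :
    ∃ C : ℝ, 0 ≤ C ∧
      (∀ (K : Type) [Field K] [NumberField K], Module.finrank ℚ K = m →
        HasGroup ℚ K (AlgebraicClosure ℚ) A → ∀ X : ℝ, 1 ≤ X →
          (fields K G X).Finite ∧
          (N K G X : ℝ) ≤ C * (X * ((|NumberField.discr K| : ℤ) : ℝ) ^ n) ^ (a G + ε)) ∧
      ∀ X : ℝ, 1 ≤ X → (towers A G X).Finite ∧
        ((towers A G X).ncard : ℝ) ≤ C * X ^ (a G + ε) := by
  classical
  obtain ⟨C, hC, hY⟩ := total_bound hn hm hG h hε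
  refine ⟨C * 2 ^ (m * n), by positivity, ?_, ?_⟩
  · intro K _ _ hK hA X hX
    obtain ⟨Φ, hΦ, hΦ2⟩ := fields_mapsTo (G := G) K hK hA X
    have hY1 : 1 ≤ X * ((|NumberField.discr K| : ℤ) : ℝ) ^ n := by
      have h1 := one_le_pow₀ (one_le_discr K) (n := n)
      nlinarith
    obtain ⟨hf, hb⟩ := hY _ hY1
    have hmaps : ∀ L ∈ fields K G X,
        Φ L ∈ total A G (X * ((|NumberField.discr K| : ℤ) : ℝ) ^ n) := fun L hL => hΦ2 L hL
    refine ⟨Set.Finite.of_injOn hmaps hΦ.injOn hf, ?_⟩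
    have h1 : (N K G X : ℝ) ≤ ((total A G (X * ((|NumberField.discr K| : ℤ) : ℝ) ^ n)).ncard : ℝ) :=
      by exact_mod_cast Set.ncard_le_ncard_of_injOn Φ hmaps hΦ.injOn hf
    refine h1.trans (hb.trans ?_)
    refine mul_le_mul_of_nonneg_right ?_ (by positivity)
    have h2 : (1 : ℝ) ≤ 2 ^ (m * n) := one_le_pow₀ (by norm_num)
    nlinarith
  · intro X hX
    obtain ⟨hf, hb⟩ := hY X hX
    have hdim : ∀ L ∈ total A G X, FiniteDimensional ℚ L ∧ Module.finrank ℚ L = m * n := by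
      rintro L ⟨H, -, hd, -, hL, -⟩
      exact ⟨hL.to_finiteDimensional, hd⟩
    let F : IntermediateField ℚ (AlgebraicClosure ℚ) →
        Set (IntermediateField ℚ (AlgebraicClosure ℚ) ×
          IntermediateField ℚ (AlgebraicClosure ℚ)) :=
      fun L => (fun K => (K, L)) '' {K | K ≤ L}
    have hF : ∀ L ∈ total A G X, (F L).Finite ∧ (F L).ncard ≤ 2 ^ (m * n) := by
      intro L hL
      obtain ⟨h1, h2⟩ := hdim L hL
      obtain ⟨h3, h4⟩ := subfields L
      refine ⟨h3.image _, (Set.ncard_image_le h3).trans ?_⟩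
      rw [← h2]
      exact h4
    have hsub : towers A G X ⊆ ⋃ L ∈ hf.toFinset, F L := by
      intro P hP
      obtain ⟨H, hH, hP2⟩ := towers_mapsTo X P hP
      obtain ⟨hle, -⟩ := hP
      refine Set.mem_biUnion (x := P.2) ?_ ?_
      · rw [Finset.mem_coe, Set.Finite.mem_toFinset]
        exact ⟨H, hH, hP2⟩
      · exact ⟨P.1, hle, rfl⟩
    have hfin : (⋃ L ∈ hf.toFinset, F L).Finite :=
      hf.toFinset.finite_toSet.biUnion fun L hL => (hF L (hf.mem_toFinset.1 hL)).1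
    refine ⟨hfin.subset hsub, ?_⟩
    have h1 : (towers A G X).ncard ≤ (total A G X).ncard * 2 ^ (m * n) := by
      refine (Set.ncard_le_ncard hsub hfin).trans ((Finset.set_ncard_biUnion_le _ _).trans ?_)
      refine (Finset.sum_le_card_nsmul _ _ (2 ^ (m * n))
        fun L hL => (hF L (hf.mem_toFinset.1 hL)).2).trans ?_
      rw [smul_eq_mul, ← Set.ncard_eq_toFinset_card _ hf]
    calc ((towers A G X).ncard : ℝ) ≤ (((total A G X).ncard * 2 ^ (m * n) : ℕ) : ℝ) := by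
          exact_mod_cast h1
      _ = ((total A G X).ncard : ℝ) * 2 ^ (m * n) := by push_cast; ring
      _ ≤ C * X ^ (a G + ε) * 2 ^ (m * n) := by gcongr
      _ = C * 2 ^ (m * n) * X ^ (a G + ε) := by ring

/-- Every number field has a group. -/
theorem exists_hasGroup (K : Type) [Field K] [NumberField K] :
    ∃ A : Subgroup (Equiv.Perm (Fin (Module.finrank ℚ K))),
      HasGroup ℚ K (AlgebraicClosure ℚ) A :=
  ⟨_, hasGroup_groupOf (Fintype.equivFinOfCardEq (AlgHom.card ℚ K (AlgebraicClosure ℚ)))⟩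

/-- The upper half over `ℚ` implies the upper half over every number field. -/
theorem allFields (h : ∀ (d : ℕ) (H : Subgroup (Equiv.Perm (Fin d))), 2 ≤ d → Transitive H →
      UpperHalf ℚ H)
    (K : Type) [Field K] [NumberField K] (hn : 2 ≤ n) (hG : Transitive G) : UpperHalf K G := by
  intro ε hε
  obtain ⟨A, hA⟩ := exists_hasGroup K
  have hm : 1 ≤ Module.finrank ℚ K := Module.finrank_pos
  obtain ⟨C, hC, hK, -⟩ := uniform (A := A) hn hm hG
    (fun H hH _ => h _ H (by nlinarith) hH) hε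
  set D : ℝ := ((|NumberField.discr K| : ℤ) : ℝ) ^ n with hD
  have hD1 : 1 ≤ D := one_le_pow₀ (one_le_discr K)
  refine ⟨C * D ^ (a G + ε) + 1, by positivity, 1, fun X hX => ?_⟩
  have h1 := (hK K rfl hA X hX).2
  rw [Real.mul_rpow (by linarith) (by linarith)] at h1
  have h2 : 0 < X ^ (a G + ε) := Real.rpow_pos_of_pos (by linarith) _
  nlinarith

end

end Pool.Agent.X308.W
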