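import Pool.Agent.X308.W.Tow
import Pool.Agent.X308.W.Final

/-!
# Upper bounds with logarithms over extensions of a number field
-/

set_option autoImplicit false

namespace Pool.Agent.X308.W

open NumberField

section galois

variable {k K L Ω : Type} [Field k] [Field K] [Field L] [Field Ω] [Algebra k K] [Algebra k L]
  [Algebra k Ω] [Algebra K L] [Algebra K Ω] [IsScalarTower k K L] [IsScalarTower k K Ω]
  [Normal k Ω]

/-- If `K/k` has group `A` and `L/K` has group `G`, then the group of `L/k` is a tower of `A` and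
`G`. -/
theorem towerGroup {m n d : ℕ} {A : Subgroup (Equiv.Perm (Fin m))}
    {G : Subgroup (Equiv.Perm (Fin n))} (hA : HasGroup k K Ω A) (hG : HasGroup K L Ω G)
    (e : (L →ₐ[k] Ω) ≃ Fin d) : TowerGroup A G (groupOf e) := by
  obtain ⟨a, ha⟩ := hA
  obtain ⟨c, hc⟩ := hG
  have h1 : ∀ (b : Fin m) (i : Fin n),
      (e.symm.trans ((pairEquiv k K L Ω).trans (a.prodCongr c))).symm (b, i) =
      e ((pairEquiv k K L Ω).symm (a.symm b, c.symm i)) := fun _ _ => rfl
  refine ⟨e.symm.trans ((pairEquiv k K L Ω).trans (a.prodCongr c)), ?_, ?_⟩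
  · intro π hπ
    obtain ⟨σ, hσ⟩ := (mem_groupOf e π).1 hπ
    refine ⟨permOf a σ, (ha _).2 ⟨σ, permOf_apply a σ⟩,
      fun b => permOf c (inner σ (a.symm b)), fun b => (hc _).2 ⟨_, permOf_apply c _⟩, ?_⟩
    intro b i
    rw [h1, ← hσ, comp_pairEquiv_symm]
    change (a.prodCongr c) ((pairEquiv k K L Ω) (e.symm (e _))) = _
    rw [Equiv.symm_apply_apply, Equiv.apply_symm_apply]
    rfl
  · intro b x hx
    obtain ⟨ρ, hρ⟩ := (hc x).1 hx
    let σ : Ω ≃ₐ[k] Ω :=
      (rep (a.symm b)).symm.trans ((ρ.restrictScalars k).trans (rep (a.symm b)))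
    refine ⟨permOf e σ, (mem_groupOf e _).2 ⟨σ, permOf_apply e σ⟩, fun i => ?_⟩
    have h2 : σ.toAlgHom.comp ((pairEquiv k K L Ω).symm (a.symm b, c.symm i)) =
        (pairEquiv k K L Ω).symm (a.symm b, ρ.toAlgHom.comp (c.symm i)) := by
      ext y
      change rep (a.symm b) (ρ ((rep (a.symm b)).symm (rep (a.symm b) (c.symm i y)))) =
        rep (a.symm b) (ρ (c.symm i y))
      rw [AlgEquiv.symm_apply_apply]
    rw [h1, ← permOf_apply, h2]
    change (a.prodCongr c) ((pairEquiv k K L Ω) (e.symm (e _))) = _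
    rw [Equiv.symm_apply_apply, Equiv.apply_symm_apply]
    change (a (a.symm b), c (ρ.toAlgHom.comp (c.symm i))) = (b, x i)
    rw [Equiv.apply_symm_apply, hρ, Equiv.apply_symm_apply]

end galois

section finiteness

variable (k : Type) [Field k] [NumberField k]

theorem finite_disc' (B : ℝ) : {L : IntermediateField k (AlgebraicClosure k) |
    ∃ h : NumberField L, ((|@NumberField.discr L _ h| : ℤ) : ℝ) ≤ B}.Finite := by
  have h := NumberField.finite_of_discr_bdd (AlgebraicClosure k) (⌈B⌉₊)
  have h2 := h.image (fun F => F.1)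
  refine Set.Finite.of_injOn (f := fun L : IntermediateField k (AlgebraicClosure k) =>
    L.restrictScalars ℚ) ?_ (IntermediateField.restrictScalars_injective ℚ).injOn h2
  rintro L ⟨hL, hb⟩
  let r0 : L ≃+* L.restrictScalars ℚ :=
    { toFun := fun x => ⟨x.1, x.2⟩
      invFun := fun x => ⟨x.1, x.2⟩
      left_inv := fun _ => rfl
      right_inv := fun _ => rfl
      map_mul' := fun _ _ => rfl
      map_add' := fun _ _ => rfl }
  have hL' : NumberField (L.restrictScalars ℚ) := NumberField.of_ringEquiv _ _ r0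
  refine ⟨⟨L.restrictScalars ℚ, hL'.to_finiteDimensional⟩, ?_, rfl⟩
  have h3 := NumberField.discr_eq_discr_of_ringEquiv L r0
  have h1 : ((|NumberField.discr (L.restrictScalars ℚ)| : ℤ) : ℝ) ≤ ((⌈B⌉₊ : ℤ) : ℝ) := by
    rw [← h3]
    exact hb.trans (by exact_mod_cast Nat.le_ceil B)
  exact_mod_cast h1

theorem finite_fields' {n : ℕ} (G : Subgroup (Equiv.Perm (Fin n))) (X : ℝ) :
    (fields k G X).Finite :=
  (finite_disc' k _).subset fun _ hL => hL.2.2

theorem N_mono' {n : ℕ} (G : Subgroup (Equiv.Perm (Fin n))) {X Y : ℝ} (h : X ≤ Y) :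
    N k G X ≤ N k G Y := by
  refine Set.ncard_le_ncard ?_ (finite_fields' k G Y)
  rintro L ⟨h1, h2, h3, h4⟩
  refine ⟨h1, h2, h3, h4.trans ?_⟩
  gcongr

/-- The norm of the relative discriminant of `K/k` (the norm of the relative different). -/
noncomputable def relDisc (k K : Type) [Field k] [NumberField k] [Field K] [NumberField K]
    [Algebra k K] : ℕ := Ideal.absNorm (differentIdeal (𝓞 k) (𝓞 K))

theorem discr_tower (K : Type) [Field K] [NumberField K] [Algebra k K] :
    ((|NumberField.discr K| : ℤ) : ℝ) =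
      relDisc k K * ((|NumberField.discr k| : ℤ) : ℝ) ^ Module.finrank k K := by
  have h := natAbs_discr_eq_absNorm_differentIdeal_mul_natAbs_discr_pow k (𝓞 k) K (𝓞 K)
  have h2 : ((|NumberField.discr K| : ℤ)) = ((NumberField.discr K).natAbs : ℤ) :=
    Int.abs_eq_natAbs _
  have h3 : ((|NumberField.discr k| : ℤ)) = ((NumberField.discr k).natAbs : ℤ) :=
    Int.abs_eq_natAbs _
  rw [h2, h3, h]
  unfold relDisc
  push_cast
  rfl

theorem one_le_relDisc (K : Type) [Field K] [NumberField K] [Algebra k K] :
    1 ≤ relDisc k K := by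
  rcases Nat.eq_zero_or_pos (relDisc k K) with h | h
  · have h1 := discr_tower k K
    rw [h] at h1
    have h2 := one_le_discr K
    rw [h1] at h2
    norm_num at h2
  · exact h

end finiteness

section transfer

variable {m n : ℕ} {A : Subgroup (Equiv.Perm (Fin m))} {G : Subgroup (Equiv.Perm (Fin n))}

theorem exists_tower {k K L Ω : Type} [Field k] [Field K] [Field L] [Field Ω] [Algebra k K]
    [Algebra k L] [Algebra k Ω] [Algebra K L] [Algebra K Ω] [IsScalarTower k K L]
    [IsScalarTower k K Ω] [Normal k Ω] [IsAlgClosed Ω] [CharZero k] [FiniteDimensional k L]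
    (hA : HasGroup k K Ω A) (hG : HasGroup K L Ω G) (hm : Module.finrank k K = m)
    (hn : Module.finrank K L = n) :
    Module.finrank k L = m * n ∧ ∃ H : Subgroup (Equiv.Perm (Fin (m * n))),
      Transitive H ∧ TowerGroup A G H ∧ HasGroup k L Ω H := by
  have h1 : Module.finrank k L = m * n := by
    rw [← Module.finrank_mul_finrank k K L, hm, hn]
  have h2 : Fintype.card (L →ₐ[k] Ω) = m * n := by
    rw [AlgHom.card k L Ω, h1]
  let e := Fintype.equivFinOfCardEq h2
  exact ⟨h1, groupOf e, fun i j => transitive_groupOf e i j, towerGroup hA hG e,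
    hasGroup_groupOf e⟩

/-- The fields counted over `K` are counted over `k`, with towers of `A` and `G` as groups. -/
theorem fields_mapsTo' (k K : Type) [Field k] [NumberField k] [Field K] [NumberField K]
    [Algebra k K] (hm : Module.finrank k K = m)
    (hA : HasGroup k K (AlgebraicClosure k) A) (X : ℝ) :
    ∃ Φ : IntermediateField K (AlgebraicClosure K) → IntermediateField k (AlgebraicClosure k),
      Function.Injective Φ ∧ ∀ L ∈ fields K G X,
        ∃ H : Subgroup (Equiv.Perm (Fin (m * n))), (Transitive H ∧ TowerGroup A G H) ∧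
          Φ L ∈ fields k H (X * (relDisc k K : ℝ) ^ n) := by
  have halg : Algebra.IsAlgebraic k K := Algebra.IsAlgebraic.tower_top (K := ℚ) k
  have hac : IsAlgClosure k (AlgebraicClosure K) :=
    ⟨inferInstance, Algebra.IsAlgebraic.trans k K (AlgebraicClosure K)⟩
  have hno : Normal k (AlgebraicClosure K) := IsAlgClosure.normal k _
  let v : AlgebraicClosure K ≃ₐ[k] AlgebraicClosure k :=
    IsAlgClosure.equiv k (AlgebraicClosure K) (AlgebraicClosure k)
  refine ⟨fun L => (L.restrictScalars k).map v.toAlgHom, ?_, ?_⟩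
  · intro L L' h
    apply IntermediateField.restrictScalars_injective k
    ext x
    have h1 : v x ∈ (L.restrictScalars k).map v.toAlgHom ↔
        v x ∈ (L'.restrictScalars k).map v.toAlgHom := by
      have : (L.restrictScalars k).map v.toAlgHom = (L'.restrictScalars k).map v.toAlgHom := h
      rw [this]
    constructor
    · intro hx
      obtain ⟨y, hy, hxy⟩ := h1.1 ⟨x, hx, rfl⟩
      have : y = x := v.injective hxy
      rwa [← this]
    · intro hx
      obtain ⟨y, hy, hxy⟩ := h1.2 ⟨x, hx, rfl⟩
      have : y = x := v.injective hxy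
      rwa [← this]
  · rintro L ⟨hn, hG, hL, hX⟩
    have hA' : HasGroup k K (AlgebraicClosure K) A := hA.congr AlgEquiv.refl v.symm
    have hfinQ : FiniteDimensional ℚ L := hL.to_finiteDimensional
    have hfin : FiniteDimensional k L := Module.Finite.of_restrictScalars_finite ℚ k L
    obtain ⟨hd, H, hH1, hH2, hH3⟩ := exists_tower hA' hG hm hn
    refine ⟨H, ⟨hH1, hH2⟩, ?_⟩
    let r0 : L ≃ₐ[k] L.restrictScalars k :=
      { toFun := fun x => ⟨x.1, x.2⟩
        invFun := fun x => ⟨x.1, x.2⟩
        left_inv := fun _ => rfl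
        right_inv := fun _ => rfl
        map_mul' := fun _ _ => rfl
        map_add' := fun _ _ => rfl
        commutes' := fun _ => rfl }
    let r : L ≃ₐ[k] (L.restrictScalars k).map v.toAlgHom :=
      r0.trans (IntermediateField.intermediateFieldMap v (L.restrictScalars k))
    have hL' : NumberField ((L.restrictScalars k).map v.toAlgHom) :=
      NumberField.of_ringEquiv _ _ r.toRingEquiv
    refine ⟨?_, hH3.congr r v, hL', ?_⟩
    · rw [← hd]
      exact r.symm.toLinearEquiv.finrank_eq
    · have h3 := NumberField.discr_eq_discr_of_ringEquiv L r.toRingEquiv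
      change ((|NumberField.discr ((L.restrictScalars k).map v.toAlgHom)| : ℤ) : ℝ) ≤ _
      rw [← h3]
      refine hX.trans (le_of_eq ?_)
      rw [discr_tower k K, hm, mul_pow, ← pow_mul]
      ring

end transfer

end Pool.Agent.X308.W
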