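import Pool.Agent.X308.W.Count2

/-!
# Uniform upper bounds with logarithms over all extensions of a number field
-/

set_option autoImplicit false

namespace Pool.Agent.X308.W

open NumberField

/-- The upper bound of the order predicted by Malle for `H` over `k`:
`N_k(H, B) = O(B ^ (1 / ind H) (log B) ^ (β_k(H) - 1))`. -/
def PredictedUpper (k : Type) [Field k] [NumberField k] {d : ℕ}
    (H : Subgroup (Equiv.Perm (Fin d))) : Prop :=
  ∃ C B₀ : ℝ, ∀ B : ℝ, B₀ ≤ B →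
    (N k H B : ℝ) ≤ C * (B ^ (1 / (minInd H : ℝ)) * (Real.log B) ^ (β k H - 1))

theorem log_two_le {Y : ℝ} (h : 2 ≤ Y) : Real.log 2 ≤ Real.log Y :=
  Real.log_le_log (by norm_num) h

theorem cmp {a₁ a₂ : ℝ} {p₁ p₂ : ℕ} (h : a₁ < a₂ ∨ (a₁ = a₂ ∧ p₁ ≤ p₂)) :
    ∃ c : ℝ, 0 ≤ c ∧ ∀ Y : ℝ, 2 ≤ Y →
      Y ^ a₁ * (Real.log Y) ^ p₁ ≤ c * (Y ^ a₂ * (Real.log Y) ^ p₂) := by
  have hl : 0 < Real.log 2 := Real.log_pos (by norm_num)
  rcases h with h | ⟨rfl, h⟩
  · set ε : ℝ := (a₂ - a₁) / (p₁ + 1) with hε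
    have hp : (0 : ℝ) < p₁ + 1 := by positivity
    have hε0 : 0 < ε := div_pos (by linarith) hp
    refine ⟨1 / (ε ^ p₁ * (Real.log 2) ^ p₂), by positivity, fun Y hY => ?_⟩
    have hY0 : (0 : ℝ) < Y := by linarith
    have hlY : Real.log 2 ≤ Real.log Y := log_two_le hY
    have h1 : Real.log Y ≤ Y ^ ε / ε := Real.log_le_rpow_div hY0.le hε0
    have h2 : (Real.log Y) ^ p₁ ≤ Y ^ (a₂ - a₁) / ε ^ p₁ := by
      calc (Real.log Y) ^ p₁ ≤ (Y ^ ε / ε) ^ p₁ := by
            exact pow_le_pow_left₀ (by linarith) h1 _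
        _ = Y ^ (ε * p₁) / ε ^ p₁ := by
            rw [div_pow, ← Real.rpow_natCast (Y ^ ε), ← Real.rpow_mul hY0.le]
        _ ≤ Y ^ (a₂ - a₁) / ε ^ p₁ := by
            gcongr
            · linarith
            · rw [hε, div_mul_eq_mul_div, div_le_iff₀ hp]
              nlinarith
    have h3 : (Real.log 2) ^ p₂ ≤ (Real.log Y) ^ p₂ := pow_le_pow_left₀ hl.le hlY _
    calc Y ^ a₁ * (Real.log Y) ^ p₁ ≤ Y ^ a₁ * (Y ^ (a₂ - a₁) / ε ^ p₁) := by gcongr
      _ = Y ^ a₂ / ε ^ p₁ := by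
          rw [mul_div_assoc', ← Real.rpow_add hY0]
          congr 2
          ring
      _ = 1 / (ε ^ p₁ * (Real.log 2) ^ p₂) * (Y ^ a₂ * (Real.log 2) ^ p₂) := by
          field_simp
      _ ≤ 1 / (ε ^ p₁ * (Real.log 2) ^ p₂) * (Y ^ a₂ * (Real.log Y) ^ p₂) := by gcongr
  · refine ⟨1 / (Real.log 2) ^ (p₂ - p₁), by positivity, fun Y hY => ?_⟩
    have hY0 : (0 : ℝ) < Y := by linarith
    have hlY : Real.log 2 ≤ Real.log Y := log_two_le hY
    have hlY0 : 0 < Real.log Y := by linarith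
    have h1 : (Real.log Y) ^ p₂ = (Real.log Y) ^ p₁ * (Real.log Y) ^ (p₂ - p₁) := by
      rw [← pow_add]
      congr 1
      omega
    have h3 : (Real.log 2) ^ (p₂ - p₁) ≤ (Real.log Y) ^ (p₂ - p₁) :=
      pow_le_pow_left₀ hl.le hlY _
    calc Y ^ a₁ * (Real.log Y) ^ p₁
        = 1 / (Real.log 2) ^ (p₂ - p₁) *
          (Y ^ a₁ * ((Real.log Y) ^ p₁ * (Real.log 2) ^ (p₂ - p₁))) := by field_simp
      _ ≤ 1 / (Real.log 2) ^ (p₂ - p₁) *
          (Y ^ a₁ * ((Real.log Y) ^ p₁ * (Real.log Y) ^ (p₂ - p₁))) := by gcongr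
      _ = 1 / (Real.log 2) ^ (p₂ - p₁) * (Y ^ a₁ * (Real.log Y) ^ p₂) := by rw [h1]

theorem PredictedUpper.bound {k : Type} [Field k] [NumberField k] {d : ℕ}
    {H : Subgroup (Equiv.Perm (Fin d))} (h : PredictedUpper k H) :
    ∃ C : ℝ, 0 ≤ C ∧ ∀ Y : ℝ, 2 ≤ Y →
      (N k H Y : ℝ) ≤ C * (Y ^ (1 / (minInd H : ℝ)) * (Real.log Y) ^ (β k H - 1)) := by
  obtain ⟨C, B₀, hC⟩ := h
  have hl : 0 < Real.log 2 := Real.log_pos (by norm_num)
  set p := β k H - 1 with hp
  set a : ℝ := 1 / (minInd H : ℝ) with ha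
  have ha0 : 0 ≤ a := by positivity
  refine ⟨max C 0 + N k H (max B₀ 2) / (Real.log 2) ^ p, by positivity, fun Y hY => ?_⟩
  have hY0 : (0 : ℝ) < Y := by linarith
  have hlY : Real.log 2 ≤ Real.log Y := log_two_le hY
  have hF : 0 ≤ Y ^ a * (Real.log Y) ^ p := by
    have : 0 ≤ Real.log Y := by linarith
    positivity
  have h3 : (Real.log 2) ^ p ≤ Y ^ a * (Real.log Y) ^ p := by
    have h4 : 1 ≤ Y ^ a := Real.one_le_rpow (by linarith) ha0
    have h5 : (Real.log 2) ^ p ≤ (Real.log Y) ^ p := pow_le_pow_left₀ hl.le hlY _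
    have h6 : 0 ≤ (Real.log 2) ^ p := by positivity
    nlinarith
  rcases le_or_gt B₀ Y with h | h
  · have h1 := hC Y h
    have h2 : C * (Y ^ a * (Real.log Y) ^ p) ≤ max C 0 * (Y ^ a * (Real.log Y) ^ p) :=
      mul_le_mul_of_nonneg_right (le_max_left _ _) hF
    have h4 : 0 ≤ N k H (max B₀ 2) / (Real.log 2) ^ p * (Y ^ a * (Real.log Y) ^ p) := by
      positivity
    nlinarith
  · have h1 : (N k H Y : ℝ) ≤ N k H (max B₀ 2) := by
      exact_mod_cast N_mono' k H (h.le.trans (le_max_left _ _))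
    have h2 : (N k H (max B₀ 2) : ℝ) ≤
        N k H (max B₀ 2) / (Real.log 2) ^ p * (Y ^ a * (Real.log Y) ^ p) := by
      rw [div_mul_eq_mul_div, le_div_iff₀ (by positivity)]
      exact mul_le_mul_of_nonneg_left h3 (by positivity)
    have h4 : 0 ≤ max C 0 * (Y ^ a * (Real.log Y) ^ p) := mul_nonneg (le_max_right _ _) hF
    nlinarith

section

variable {m n : ℕ} (k : Type) [Field k] [NumberField k] (A : Subgroup (Equiv.Perm (Fin m)))
  (G : Subgroup (Equiv.Perm (Fin n)))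

/-- All fields of degree `m n` over `k` whose group is a tower of `A` and `G`. -/
def total' (Y : ℝ) : Set (IntermediateField k (AlgebraicClosure k)) :=
  {L | ∃ H : Subgroup (Equiv.Perm (Fin (m * n))), (Transitive H ∧ TowerGroup A G H) ∧
    L ∈ fields k H Y}

variable {k A G}

theorem minInd_pos (hn : 2 ≤ n) (hG : Transitive G) : 0 < minInd G := by
  obtain ⟨g, -, hg1, hg⟩ := Nat.sInf_mem (set_nonempty hn hG)
  have := ind_pos hg1
  unfold minInd
  omega

theorem minInd_le {d : ℕ} {H : Subgroup (Equiv.Perm (Fin d))} (hn : 2 ≤ n) (hd : 2 ≤ d)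
    (hG : Transitive G) (hH : Transitive H) (h : InWreath A G H) : minInd G ≤ minInd H := by
  obtain ⟨g, hg, hg1, hg2⟩ := Nat.sInf_mem (set_nonempty hn hG)
  obtain ⟨π, hπ, hπ1, hπ2⟩ := Nat.sInf_mem (set_nonempty hd hH)
  have h1 : minInd G ≤ ind π := by
    refine le_ind_of_inWreath h (fun g' hg' hg1' => Nat.sInf_le
      (show ind g' ∈ {j : ℕ | ∃ g ∈ G, g ≠ 1 ∧ j = ind g} from ⟨g', hg', hg1', rfl⟩)) ?_ hπ hπ1
    rw [hg2]
    have := ind_lt g (by simp; omega)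
    simp at this
    omega
  unfold minInd at h1 ⊢
  omega

theorem total_bound' (hn : 2 ≤ n) (hm : 1 ≤ m) (hG : Transitive G)
    (h : ∀ H : Subgroup (Equiv.Perm (Fin (m * n))), Transitive H → TowerGroup A G H →
      PredictedUpper k H) :
    ∃ C : ℝ, 0 ≤ C ∧ ∀ Y : ℝ, 2 ≤ Y → (total' k A G Y).Finite ∧
      ((total' k A G Y).ncard : ℝ) ≤
        C * (Y ^ (1 / (minInd G : ℝ)) * (Real.log Y) ^ (β k G - 1)) := by
  classical
  let S : Finset (Subgroup (Equiv.Perm (Fin (m * n)))) :=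
    (Set.toFinite {H : Subgroup (Equiv.Perm (Fin (m * n))) |
      Transitive H ∧ TowerGroup A G H}).toFinset
  have hS : ∀ H, H ∈ S ↔ Transitive H ∧ TowerGroup A G H := by
    intro H
    simp [S]
  have hb : ∀ H : Subgroup (Equiv.Perm (Fin (m * n))), ∃ C : ℝ, 0 ≤ C ∧
      (H ∈ S → ∀ Y : ℝ, 2 ≤ Y → (N k H Y : ℝ) ≤
        C * (Y ^ (1 / (minInd G : ℝ)) * (Real.log Y) ^ (β k G - 1))) := by
    intro H
    by_cases hH : H ∈ S
    · obtain ⟨hH1, hH2⟩ := (hS H).1 hH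
      obtain ⟨C, hC, hY⟩ := (h H hH1 hH2).bound
      have hle := minInd_le hn (d := m * n) (by nlinarith) hG hH1 hH2.inWreath
      have hpos := minInd_pos hn hG
      obtain ⟨c, hc, hcY⟩ := cmp (a₁ := 1 / (minInd H : ℝ)) (a₂ := 1 / (minInd G : ℝ))
        (p₁ := β k H - 1) (p₂ := β k G - 1) (by
          rcases Nat.lt_or_ge (minInd G) (minInd H) with h1 | h1
          · left
            have h2 : (0 : ℝ) < minInd G := by exact_mod_cast hpos
            exact one_div_lt_one_div_of_lt h2 (by exact_mod_cast h1)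
          · right
            have h2 : minInd H = minInd G := le_antisymm h1 hle
            have h3 := β_le k hn hG hH1 hH2 h2
            refine ⟨by rw [h2], by omega⟩)
      refine ⟨C * c, by positivity, fun _ Y hY2 => (hY Y hY2).trans ?_⟩
      rw [mul_assoc]
      exact mul_le_mul_of_nonneg_left (hcY Y hY2) hC
    · exact ⟨0, le_refl _, fun h => absurd h hH⟩
  choose C hC hCY using hb
  refine ⟨∑ H ∈ S, C H, Finset.sum_nonneg fun H _ => hC H, fun Y hY => ?_⟩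
  have hT : total' k A G Y = ⋃ H ∈ S, fields k H Y := by
    refine Set.ext fun L => ⟨?_, ?_⟩
    · rintro ⟨H, hH, hL⟩
      exact Set.mem_iUnion₂.2 ⟨H, (hS H).2 hH, hL⟩
    · intro hL
      obtain ⟨H, hH, hL⟩ := Set.mem_iUnion₂.1 hL
      exact ⟨H, (hS H).1 hH, hL⟩
  have hfin : (total' k A G Y).Finite := by
    rw [hT]
    exact S.finite_toSet.biUnion fun H _ => finite_fields' k H Y
  refine ⟨hfin, ?_⟩
  have h1 : (total' k A G Y).ncard ≤ ∑ H ∈ S, N k H Y := by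
    rw [hT]
    exact S.set_ncard_biUnion_le _
  calc ((total' k A G Y).ncard : ℝ) ≤ ((∑ H ∈ S, N k H Y : ℕ) : ℝ) := by exact_mod_cast h1
    _ = ∑ H ∈ S, (N k H Y : ℝ) := by push_cast; rfl
    _ ≤ ∑ H ∈ S, C H * (Y ^ (1 / (minInd G : ℝ)) * (Real.log Y) ^ (β k G - 1)) :=
        Finset.sum_le_sum fun H hH => hCY H hH Y hY
    _ = (∑ H ∈ S, C H) * (Y ^ (1 / (minInd G : ℝ)) * (Real.log Y) ^ (β k G - 1)) := by
        rw [Finset.sum_mul]

/-- **The uniform bound with logarithms.** -/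
theorem uniform' (hn : 2 ≤ n) (hm : 1 ≤ m) (hG : Transitive G)
    (h : ∀ H : Subgroup (Equiv.Perm (Fin (m * n))), Transitive H → TowerGroup A G H →
      PredictedUpper k H) :
    ∃ C : ℝ, 0 ≤ C ∧ ∀ (K : Type) [Field K] [NumberField K] [Algebra k K],
      Module.finrank k K = m → HasGroup k K (AlgebraicClosure k) A → ∀ B : ℝ, 2 ≤ B →
        (fields K G B).Finite ∧ (N K G B : ℝ) ≤
          C * ((B * (relDisc k K : ℝ) ^ n) ^ (1 / (minInd G : ℝ)) *
            (Real.log (B * (relDisc k K : ℝ) ^ n)) ^ (β k G - 1)) := by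
  obtain ⟨C, hC, hY⟩ := total_bound' hn hm hG h
  refine ⟨C, hC, fun K _ _ _ hK hA B hB => ?_⟩
  obtain ⟨Φ, hΦ, hΦ2⟩ := fields_mapsTo' (G := G) k K hK hA B
  have hD : (1 : ℝ) ≤ (relDisc k K : ℝ) ^ n :=
    one_le_pow₀ (by exact_mod_cast one_le_relDisc k K)
  obtain ⟨hf, hb⟩ := hY (B * (relDisc k K : ℝ) ^ n) (by nlinarith)
  have hmaps : ∀ L ∈ fields K G B,
      Φ L ∈ total' k A G (B * (relDisc k K : ℝ) ^ n) := fun L hL => hΦ2 L hL
  refine ⟨Set.Finite.of_injOn hmaps hΦ.injOn hf, le_trans ?_ hb⟩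
  exact_mod_cast Set.ncard_le_ncard_of_injOn Φ hmaps hΦ.injOn hf

/-- The upper bound predicted over `K` for one extension `K/k`. -/
theorem predicted (hn : 2 ≤ n) (hm : 1 ≤ m) (hG : Transitive G)
    (h : ∀ H : Subgroup (Equiv.Perm (Fin (m * n))), Transitive H → TowerGroup A G H →
      PredictedUpper k H)
    (K : Type) [Field K] [NumberField K] [Algebra k K] (hK : Module.finrank k K = m)
    (hA : HasGroup k K (AlgebraicClosure k) A) : PredictedUpper K G := by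
  obtain ⟨C, hC, hCK⟩ := uniform' hn hm hG h
  have hl : 0 < Real.log 2 := Real.log_pos (by norm_num)
  have halg : Algebra.IsAlgebraic k K := Algebra.IsAlgebraic.tower_top (K := ℚ) k
  have hβ : β k G ≤ β K G := β_mono K
  obtain ⟨c, hc, hcY⟩ := cmp (a₁ := 1 / (minInd G : ℝ)) (a₂ := 1 / (minInd G : ℝ))
    (p₁ := β k G - 1) (p₂ := β K G - 1) (Or.inr ⟨rfl, by omega⟩)
  set a : ℝ := 1 / (minInd G : ℝ) with ha
  set p := β k G - 1 with hp
  set D : ℝ := (relDisc k K : ℝ) ^ n with hD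
  have hD1 : (1 : ℝ) ≤ D := one_le_pow₀ (by exact_mod_cast one_le_relDisc k K)
  set q : ℝ := 1 + Real.log D / Real.log 2 with hq
  have hlD : 0 ≤ Real.log D := Real.log_nonneg hD1
  have hq0 : 0 ≤ q := by positivity
  refine ⟨C * (D ^ a * q ^ p) * c, 2, fun B hB => ?_⟩
  have hB0 : (0 : ℝ) < B := by linarith
  have hlB : Real.log 2 ≤ Real.log B := log_two_le hB
  have h1 := (hCK K hK hA B hB).2
  have h2 : Real.log (B * D) ≤ q * Real.log B := by
    rw [Real.log_mul hB0.ne' (by positivity), hq, add_mul, one_mul]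
    have h3 : Real.log D ≤ Real.log D / Real.log 2 * Real.log B := by
      rw [div_mul_eq_mul_div, le_div_iff₀ hl]
      exact mul_le_mul_of_nonneg_left hlB hlD
    linarith
  have h0 : 0 ≤ Real.log (B * D) := Real.log_nonneg (by nlinarith)
  have h4 : (Real.log (B * D)) ^ p ≤ q ^ p * (Real.log B) ^ p := by
    rw [← mul_pow]
    exact pow_le_pow_left₀ h0 h2 _
  have h5 : (B * D) ^ a = B ^ a * D ^ a := Real.mul_rpow hB0.le (by linarith)
  calc (N K G B : ℝ) ≤ C * ((B * D) ^ a * (Real.log (B * D)) ^ p) := h1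
    _ ≤ C * (B ^ a * D ^ a * (q ^ p * (Real.log B) ^ p)) := by
        rw [h5]
        have : 0 ≤ B ^ a * D ^ a := by positivity
        exact mul_le_mul_of_nonneg_left (mul_le_mul_of_nonneg_left h4 this) hC
    _ = C * (D ^ a * q ^ p) * (B ^ a * (Real.log B) ^ p) := by ring
    _ ≤ C * (D ^ a * q ^ p) * (c * (B ^ a * (Real.log B) ^ (β K G - 1))) := by
        refine mul_le_mul_of_nonneg_left (hcY B hB) ?_
        have : 0 ≤ D ^ a := by positivity
        positivity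
    _ = C * (D ^ a * q ^ p) * c * (B ^ a * (Real.log B) ^ (β K G - 1)) := by ring

/-- Every extension of number fields has a group. -/
theorem exists_hasGroup' (k K : Type) [Field k] [NumberField k] [Field K] [NumberField K]
    [Algebra k K] : ∃ A : Subgroup (Equiv.Perm (Fin (Module.finrank k K))),
      HasGroup k K (AlgebraicClosure k) A :=
  ⟨_, hasGroup_groupOf (Fintype.equivFinOfCardEq (AlgHom.card k K (AlgebraicClosure k)))⟩

end

end Pool.Agent.X308.W
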