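import Pool.Agent.X308.W.Ind

/-!
# The Galois group of a tower is contained in a wreath product
-/

set_option autoImplicit false

namespace Pool.Agent.X308.W

/-- The extension `L/k` has group `G ≤ S_n`: `G` is, for some numbering of the `k`-embeddings
`L → Ω` (`Ω` an algebraic closure of `k`), the group of the permutations induced by the
automorphisms of `Ω/k`. -/
def HasGroup (k L Ω : Type) [Field k] [Field L] [Field Ω] [Algebra k L] [Algebra k Ω] {n : ℕ}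
    (G : Subgroup (Equiv.Perm (Fin n))) : Prop :=
  ∃ e : (L →ₐ[k] Ω) ≃ Fin n, ∀ π : Equiv.Perm (Fin n),
    π ∈ G ↔ ∃ σ : Ω ≃ₐ[k] Ω, ∀ φ : L →ₐ[k] Ω, e (σ.toAlgHom.comp φ) = π (e φ)

theorem HasGroup.congr {k L L' Ω Ω' : Type} [Field k] [Field L] [Field L'] [Field Ω] [Field Ω']
    [Algebra k L] [Algebra k L'] [Algebra k Ω] [Algebra k Ω'] {n : ℕ}
    {G : Subgroup (Equiv.Perm (Fin n))} (h : HasGroup k L Ω G) (u : L ≃ₐ[k] L')
    (v : Ω ≃ₐ[k] Ω') : HasGroup k L' Ω' G := by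
  obtain ⟨e, he⟩ := h
  let w : (L' →ₐ[k] Ω') ≃ (L →ₐ[k] Ω) :=
    { toFun := fun φ => (v.symm.toAlgHom.comp φ).comp u.toAlgHom
      invFun := fun φ => (v.toAlgHom.comp φ).comp u.symm.toAlgHom
      left_inv := fun φ => by ext x; simp
      right_inv := fun φ => by ext x; simp }
  refine ⟨w.trans e, fun π => (he π).trans ?_⟩
  constructor
  · rintro ⟨σ, hσ⟩
    refine ⟨(v.symm.trans σ).trans v, fun φ => ?_⟩
    have h1 := hσ (w φ)
    have h2 : σ.toAlgHom.comp (w φ) =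
        w (((v.symm.trans σ).trans v).toAlgHom.comp φ) := by
      ext x; simp [w]
    rw [h2] at h1
    exact h1
  · rintro ⟨σ, hσ⟩
    refine ⟨(v.trans σ).trans v.symm, fun φ => ?_⟩
    obtain ⟨ψ, rfl⟩ := w.surjective φ
    have h1 := hσ ψ
    have h2 : ((v.trans σ).trans v.symm).toAlgHom.comp (w ψ) =
        w (σ.toAlgHom.comp ψ) := by
      ext x; simp [w]
    rw [h2]
    exact h1

section
variable {k L Ω : Type} [Field k] [Field L] [Field Ω] [Algebra k L] [Algebra k Ω]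

/-- The permutation group of a numbering. -/
def groupOf {n : ℕ} (e : (L →ₐ[k] Ω) ≃ Fin n) : Subgroup (Equiv.Perm (Fin n)) where
  carrier := {π | ∃ σ : Ω ≃ₐ[k] Ω, ∀ φ : L →ₐ[k] Ω, e (σ.toAlgHom.comp φ) = π (e φ)}
  mul_mem' := by
    rintro π ρ ⟨σ, hσ⟩ ⟨τ, hτ⟩
    refine ⟨σ * τ, fun φ => ?_⟩
    have h : (σ * τ).toAlgHom.comp φ = σ.toAlgHom.comp (τ.toAlgHom.comp φ) := by
      ext x; rfl
    rw [h, hσ, hτ]
    rfl
  one_mem' := ⟨1, fun φ => by
    have h : (1 : Ω ≃ₐ[k] Ω).toAlgHom.comp φ = φ := by ext x; rfl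
    rw [h]; rfl⟩
  inv_mem' := by
    rintro π ⟨σ, hσ⟩
    refine ⟨σ.symm, fun φ => ?_⟩
    have h : σ.toAlgHom.comp (σ.symm.toAlgHom.comp φ) = φ := by ext x; simp
    have h1 := hσ (σ.symm.toAlgHom.comp φ)
    rw [h] at h1
    rw [h1]
    simp

theorem mem_groupOf {n : ℕ} (e : (L →ₐ[k] Ω) ≃ Fin n) (π : Equiv.Perm (Fin n)) :
    π ∈ groupOf e ↔ ∃ σ : Ω ≃ₐ[k] Ω, ∀ φ : L →ₐ[k] Ω, e (σ.toAlgHom.comp φ) = π (e φ) :=
  Iff.rfl

theorem hasGroup_groupOf {n : ℕ} (e : (L →ₐ[k] Ω) ≃ Fin n) : HasGroup k L Ω (groupOf e) :=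
  ⟨e, fun π => mem_groupOf e π⟩

/-- The permutation induced by an automorphism. -/
def permOf {n : ℕ} (e : (L →ₐ[k] Ω) ≃ Fin n) (σ : Ω ≃ₐ[k] Ω) : Equiv.Perm (Fin n) where
  toFun i := e (σ.toAlgHom.comp (e.symm i))
  invFun i := e (σ.symm.toAlgHom.comp (e.symm i))
  left_inv i := by
    have h : σ.symm.toAlgHom.comp (σ.toAlgHom.comp (e.symm i)) = e.symm i := by ext x; simp
    simp [h]
  right_inv i := by
    have h : σ.toAlgHom.comp (σ.symm.toAlgHom.comp (e.symm i)) = e.symm i := by ext x; simp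
    simp [h]

theorem permOf_apply {n : ℕ} (e : (L →ₐ[k] Ω) ≃ Fin n) (σ : Ω ≃ₐ[k] Ω) (φ : L →ₐ[k] Ω) :
    e (σ.toAlgHom.comp φ) = permOf e σ (e φ) := by
  simp [permOf]

variable [Normal k Ω]

/-- Two embeddings into a normal extension are conjugate. -/
theorem exists_comp_eq (φ ψ : L →ₐ[k] Ω) : ∃ σ : Ω ≃ₐ[k] Ω, σ.toAlgHom.comp φ = ψ := by
  let χ : φ.fieldRange ≃ₐ[k] ψ.fieldRange :=
    (AlgEquiv.ofInjectiveField φ).symm.trans (AlgEquiv.ofInjectiveField ψ)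
  refine ⟨AlgEquiv.liftNormal χ Ω, ?_⟩
  ext x
  have h := AlgEquiv.liftNormal_commutes χ Ω (AlgEquiv.ofInjectiveField φ x)
  have h1 : χ (AlgEquiv.ofInjectiveField φ x) = AlgEquiv.ofInjectiveField ψ x := by
    change AlgEquiv.ofInjectiveField ψ
      ((AlgEquiv.ofInjectiveField φ).symm (AlgEquiv.ofInjectiveField φ x)) = _
    rw [AlgEquiv.symm_apply_apply]
  rw [h1] at h
  exact h

theorem transitive_groupOf {n : ℕ} (e : (L →ₐ[k] Ω) ≃ Fin n) (i j : Fin n) :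
    ∃ g ∈ groupOf e, g i = j := by
  obtain ⟨σ, hσ⟩ := exists_comp_eq (e.symm i) (e.symm j)
  refine ⟨permOf e σ, (mem_groupOf e _).2 ⟨σ, fun φ => permOf_apply e σ φ⟩, ?_⟩
  have h := permOf_apply e σ (e.symm i)
  rw [hσ] at h
  simpa using h.symm

end

section tower
variable {k K L Ω : Type} [Field k] [Field K] [Field L] [Field Ω] [Algebra k K] [Algebra k L]
  [Algebra k Ω] [Algebra K L] [Algebra K Ω] [IsScalarTower k K L] [IsScalarTower k K Ω]
  [Normal k Ω]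

/-- The inclusion of `K` in `Ω`. -/
def incl (k K Ω : Type) [Field k] [Field K] [Field Ω] [Algebra k K] [Algebra k Ω] [Algebra K Ω]
    [IsScalarTower k K Ω] : K →ₐ[k] Ω := IsScalarTower.toAlgHom k K Ω

/-- An automorphism which maps the inclusion to `b`. -/
noncomputable def rep (b : K →ₐ[k] Ω) : Ω ≃ₐ[k] Ω := (exists_comp_eq (incl k K Ω) b).choose

theorem rep_spec (b : K →ₐ[k] Ω) : (rep b).toAlgHom.comp (incl k K Ω) = b :=
  (exists_comp_eq (incl k K Ω) b).choose_spec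

theorem rep_apply (b : K →ₐ[k] Ω) (x : K) : rep b (algebraMap K Ω x) = b x :=
  congrArg (fun f : K →ₐ[k] Ω => f x) (rep_spec b)

/-- The restriction of an embedding of `L` to `K`. -/
def restr (χ : L →ₐ[k] Ω) : K →ₐ[k] Ω := χ.comp (IsScalarTower.toAlgHom k K L)

/-- A `k`-embedding of `L`, moved so that it becomes a `K`-embedding. -/
noncomputable def fibre (χ : L →ₐ[k] Ω) : L →ₐ[K] Ω :=
  { ((rep (restr χ : K →ₐ[k] Ω)).symm.toAlgHom.comp χ) with
    commutes' := fun x => by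
      change (rep (restr χ : K →ₐ[k] Ω)).symm (χ (algebraMap K L x)) = algebraMap K Ω x
      rw [AlgEquiv.symm_apply_eq]
      exact (rep_apply (restr χ : K →ₐ[k] Ω) x).symm }

theorem fibre_apply (χ : L →ₐ[k] Ω) (x : L) :
    (fibre χ : L →ₐ[K] Ω) x = (rep (restr χ : K →ₐ[k] Ω)).symm (χ x) := rfl

theorem restr_comp (b : K →ₐ[k] Ω) (φ : L →ₐ[K] Ω) :
    (restr ((rep b).toAlgHom.comp (φ.restrictScalars k)) : K →ₐ[k] Ω) = b := by
  ext x
  change rep b (φ (algebraMap K L x)) = b x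
  rw [φ.commutes]
  exact rep_apply b x

variable (k K L Ω) in
/-- The embeddings of `L` are the pairs of an embedding of `K` and a `K`-embedding of `L`. -/
noncomputable def pairEquiv : (L →ₐ[k] Ω) ≃ (K →ₐ[k] Ω) × (L →ₐ[K] Ω) where
  toFun χ := (restr χ, fibre χ)
  invFun p := (rep p.1).toAlgHom.comp (p.2.restrictScalars k)
  left_inv χ := by
    ext x
    change rep (restr χ : K →ₐ[k] Ω) ((fibre χ : L →ₐ[K] Ω) x) = χ x
    rw [fibre_apply]
    simp
  right_inv p := by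
    obtain ⟨b, φ⟩ := p
    refine Prod.ext (restr_comp b φ) ?_
    ext x
    change (fibre ((rep b).toAlgHom.comp (φ.restrictScalars k)) : L →ₐ[K] Ω) x = φ x
    rw [fibre_apply, restr_comp]
    change (rep b).symm (rep b (φ x)) = φ x
    simp

theorem pairEquiv_symm_apply (b : K →ₐ[k] Ω) (φ : L →ₐ[K] Ω) (x : L) :
    (pairEquiv k K L Ω).symm (b, φ) x = rep b (φ x) := rfl

/-- The automorphism over `K` which describes how `σ` maps the block of `b` to its image. -/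
noncomputable def inner (σ : Ω ≃ₐ[k] Ω) (b : K →ₐ[k] Ω) : Ω ≃ₐ[K] Ω :=
  { (((rep b).trans σ).trans (rep (σ.toAlgHom.comp b)).symm) with
    commutes' := fun x => by
      change (rep (σ.toAlgHom.comp b)).symm (σ (rep b (algebraMap K Ω x))) = algebraMap K Ω x
      rw [rep_apply, AlgEquiv.symm_apply_eq, rep_apply]
      rfl }

theorem inner_apply (σ : Ω ≃ₐ[k] Ω) (b : K →ₐ[k] Ω) (y : Ω) :
    inner σ b y = (rep (σ.toAlgHom.comp b)).symm (σ (rep b y)) := rfl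

theorem comp_pairEquiv_symm (σ : Ω ≃ₐ[k] Ω) (b : K →ₐ[k] Ω) (φ : L →ₐ[K] Ω) :
    σ.toAlgHom.comp ((pairEquiv k K L Ω).symm (b, φ)) =
      (pairEquiv k K L Ω).symm (σ.toAlgHom.comp b, (inner σ b).toAlgHom.comp φ) := by
  ext x
  change σ (rep b (φ x)) = rep (σ.toAlgHom.comp b) (inner σ b (φ x))
  rw [inner_apply]
  simp

/-- **The wreath product.** If `K/k` has group `A` and `L/K` has group `G`, then the group of `L/k`
is contained in `G ≀ A`. -/
theorem inWreath {m n d : ℕ} {A : Subgroup (Equiv.Perm (Fin m))}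
    {G : Subgroup (Equiv.Perm (Fin n))} (hA : HasGroup k K Ω A) (hG : HasGroup K L Ω G)
    (e : (L →ₐ[k] Ω) ≃ Fin d) : InWreath A G (groupOf e) := by
  obtain ⟨a, ha⟩ := hA
  obtain ⟨c, hc⟩ := hG
  refine ⟨e.symm.trans ((pairEquiv k K L Ω).trans (a.prodCongr c)), ?_⟩
  intro π hπ
  obtain ⟨σ, hσ⟩ := (mem_groupOf e π).1 hπ
  refine ⟨permOf a σ, (ha _).2 ⟨σ, permOf_apply a σ⟩,
    fun b => permOf c (inner σ (a.symm b)), fun b => (hc _).2 ⟨_, permOf_apply c _⟩, ?_⟩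
  intro b i
  have h1 : (e.symm.trans ((pairEquiv k K L Ω).trans (a.prodCongr c))).symm (b, i) =
      e ((pairEquiv k K L Ω).symm (a.symm b, c.symm i)) := rfl
  rw [h1, ← hσ, comp_pairEquiv_symm]
  change (a.prodCongr c) ((pairEquiv k K L Ω) (e.symm (e _))) = _
  rw [Equiv.symm_apply_apply, Equiv.apply_symm_apply]
  rfl

end tower

end Pool.Agent.X308.W
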