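import Mathlib

/-!
# The index of a permutation in a wreath product

`idx g` is the degree minus the number of cycles. If `H` is contained in the wreath product of `G`
(degree `n`) and a permutation group of degree `m`, acting on `m` blocks of size `n`, then every
`h ≠ 1` in `H` has index at least the minimal index of the elements `≠ 1` of `G`.
-/

set_option autoImplicit false

namespace Pool.Agent.X308.W

open Equiv.Perm

/-- The index: degree minus number of cycles (fixed points included). -/
def ind {α : Type*} [Fintype α] [DecidableEq α] (g : Equiv.Perm α) : ℕ :=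
  g.cycleType.sum - Multiset.card g.cycleType

section
variable {α : Type*} [Fintype α] [DecidableEq α]

theorem card_le_sum (g : Equiv.Perm α) : Multiset.card g.cycleType ≤ g.cycleType.sum := by
  have h := Multiset.card_nsmul_le_sum (s := g.cycleType) (a := 1)
    (fun x hx => le_trans (by norm_num) (two_le_of_mem_cycleType hx))
  simpa using h

theorem ind_eq (g : Equiv.Perm α) :
    ind g = ∑ c ∈ g.cycleFactorsFinset, (c.support.card - 1) := by
  have h1 : g.cycleType.sum = ∑ c ∈ g.cycleFactorsFinset, c.support.card := by
    rw [cycleType_def]; rfl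
  have h2 : Multiset.card g.cycleType = ∑ c ∈ g.cycleFactorsFinset, 1 := by
    rw [cycleType_def]; simp
  have h3 : ∑ c ∈ g.cycleFactorsFinset, (c.support.card - 1) + ∑ c ∈ g.cycleFactorsFinset, 1 =
      ∑ c ∈ g.cycleFactorsFinset, c.support.card := by
    rw [← Finset.sum_add_distrib]
    refine Finset.sum_congr rfl fun c hc => ?_
    have : 2 ≤ c.support.card := (mem_cycleFactorsFinset_iff.1 hc).1.two_le_card_support
    omega
  unfold ind
  omega

/-- A set which is disjoint from its image has at most `ind g` elements. -/
theorem card_le_ind (g : Equiv.Perm α) (S : Finset α) (hS : ∀ x ∈ S, g x ∉ S) :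
    S.card ≤ ind g := by
  classical
  rw [ind_eq]
  have h1 : S ⊆ g.cycleFactorsFinset.biUnion (fun c => c.support ∩ S) := by
    intro x hx
    have hne : g x ≠ x := fun h => hS x hx (by rw [h]; exact hx)
    refine Finset.mem_biUnion.2 ⟨g.cycleOf x, ?_, Finset.mem_inter.2 ⟨?_, hx⟩⟩
    · exact cycleOf_mem_cycleFactorsFinset_iff.2 (mem_support.2 hne)
    · rw [mem_support_cycleOf_iff]
      exact ⟨SameCycle.refl _ _, mem_support.2 hne⟩
  refine (Finset.card_le_card h1).trans (Finset.card_biUnion_le.trans ?_)
  refine Finset.sum_le_sum fun c hc => ?_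
  obtain ⟨hcyc, hcg⟩ := mem_cycleFactorsFinset_iff.1 hc
  have hlt : (c.support ∩ S).card < c.support.card := by
    refine Finset.card_lt_card ?_
    rw [Finset.ssubset_iff_of_subset Finset.inter_subset_left]
    obtain ⟨x, hx, -⟩ := hcyc
    have hx' : x ∈ c.support := mem_support.2 hx
    by_cases hxS : x ∈ S
    · refine ⟨c x, ?_, ?_⟩
      · exact apply_mem_support.2 hx'
      · intro h
        have h2 := (Finset.mem_inter.1 h).2
        rw [hcg x hx'] at h2
        exact hS x hxS h2
    · exact ⟨x, hx', fun h => hxS (Finset.mem_inter.1 h).2⟩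
  omega

/-- If `g` acts on the image of `f` like `π`, then `g` is the disjoint product of `π` and a
permutation, and the indices add up. -/
theorem ind_embed_add {β : Type*} [Fintype β] [DecidableEq β] (f : β → α)
    (hf : Function.Injective f) (π : Equiv.Perm β) (g : Equiv.Perm α)
    (h : ∀ i, g (f i) = f (π i)) : ∃ u : Equiv.Perm α, (∀ i, u (f i) = f (π i)) ∧
      (∀ x, x ∉ Set.range f → u x = x) ∧ ind g = ind π + ind (u⁻¹ * g) := by
  classical
  let f' : β ≃ {x : α // x ∈ Set.range f} := Equiv.ofInjective f hf
  set u : Equiv.Perm α := π.extendDomain f' with hu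
  have hu1 : ∀ i, u (f i) = f (π i) := by
    intro i
    have := extendDomain_apply_image π f' i
    simpa [f'] using this
  have hu2 : ∀ x, x ∉ Set.range f → u x = x := fun x hx => extendDomain_apply_not_subtype π f' hx
  have hd : Disjoint u (u⁻¹ * g) := by
    intro x
    by_cases hx : x ∈ Set.range f
    · right
      obtain ⟨i, rfl⟩ := hx
      rw [mul_apply, h i, ← hu1 i]
      simp
    · left
      exact hu2 x hx
  have hmul : u * (u⁻¹ * g) = g := by group
  have hct : g.cycleType = u.cycleType + (u⁻¹ * g).cycleType := by
    rw [← hd.cycleType_mul, hmul]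
  have hcu : u.cycleType = π.cycleType := cycleType_extendDomain f'
  refine ⟨u, hu1, hu2, ?_⟩
  have h1 := card_le_sum π
  have h2 := card_le_sum (u⁻¹ * g)
  unfold ind
  rw [hct, hcu, Multiset.sum_add, Multiset.card_add]
  omega

/-- If `g` acts on the image of `f` like `π`, then `ind π ≤ ind g`. -/
theorem ind_le_of_embed {β : Type*} [Fintype β] [DecidableEq β] (f : β → α)
    (hf : Function.Injective f) (π : Equiv.Perm β) (g : Equiv.Perm α)
    (h : ∀ i, g (f i) = f (π i)) : ind π ≤ ind g := by
  classical
  let f' : β ≃ {x : α // x ∈ Set.range f} := Equiv.ofInjective f hf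
  set u : Equiv.Perm α := π.extendDomain f' with hu
  have hu1 : ∀ i, u (f i) = f (π i) := by
    intro i
    have := extendDomain_apply_image π f' i
    simpa [f'] using this
  have hu2 : ∀ x, x ∉ Set.range f → u x = x := fun x hx => extendDomain_apply_not_subtype π f' hx
  have hd : Disjoint u (u⁻¹ * g) := by
    intro x
    by_cases hx : x ∈ Set.range f
    · right
      obtain ⟨i, rfl⟩ := hx
      rw [mul_apply, h i, ← hu1 i]
      simp
    · left
      exact hu2 x hx
  have hmul : u * (u⁻¹ * g) = g := by group
  have hct : g.cycleType = u.cycleType + (u⁻¹ * g).cycleType := by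
    rw [← hd.cycleType_mul, hmul]
  have hcu : u.cycleType = π.cycleType := cycleType_extendDomain f'
  have h1 := card_le_sum π
  have h2 := card_le_sum (u⁻¹ * g)
  unfold ind
  rw [hct, hcu, Multiset.sum_add, Multiset.card_add]
  omega

theorem ind_conj (g t : Equiv.Perm α) : ind (t * g * t⁻¹) = ind g := by
  unfold ind
  rw [cycleType_conj]

/-- The index is smaller than the degree. -/
theorem ind_lt (g : Equiv.Perm α) (h : 0 < Fintype.card α) : ind g < Fintype.card α := by
  have h1 : g.cycleType.sum ≤ Fintype.card α := by
    rw [sum_cycleType]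
    exact Finset.card_le_univ _
  unfold ind
  rcases Nat.eq_zero_or_pos (Multiset.card g.cycleType) with h0 | h0
  · have : g.cycleType = 0 := Multiset.card_eq_zero.1 h0
    rw [this]
    simpa using h
  · omega

end

/-- `H` is contained in the wreath product `G ≀ A` (up to numbering): there are a numbering of the
points by pairs (block, point) such that every element of `H` permutes the blocks by an element of
`A` and maps each block to its image by an element of `G`. -/
def InWreath {m n d : ℕ} (A : Subgroup (Equiv.Perm (Fin m))) (G : Subgroup (Equiv.Perm (Fin n)))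
    (H : Subgroup (Equiv.Perm (Fin d))) : Prop :=
  ∃ f : Fin d ≃ Fin m × Fin n, ∀ π ∈ H, ∃ s ∈ A, ∃ g : Fin m → Equiv.Perm (Fin n),
    (∀ b, g b ∈ G) ∧ ∀ b i, f (π (f.symm (b, i))) = (s b, g b i)

/-- The elements `≠ 1` of `H ≤ G ≀ A` have index at least the minimal index of `G`. -/
theorem le_ind_of_inWreath {m n d : ℕ} {A : Subgroup (Equiv.Perm (Fin m))}
    {G : Subgroup (Equiv.Perm (Fin n))} {H : Subgroup (Equiv.Perm (Fin d))}
    (h : InWreath A G H) {i : ℕ} (hi : ∀ g ∈ G, g ≠ 1 → i ≤ ind g) (hin : i ≤ n)
    {π : Equiv.Perm (Fin d)} (hπ : π ∈ H) (h1 : π ≠ 1) : i ≤ ind π := by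
  classical
  obtain ⟨f, hf⟩ := h
  obtain ⟨s, -, g, hg, hs⟩ := hf π hπ
  by_cases hb : ∃ b, s b ≠ b
  · obtain ⟨b, hb⟩ := hb
    have hinj : Function.Injective (fun i : Fin n => f.symm (b, i)) := by
      intro i j hij
      have := f.symm.injective hij
      simpa using this
    have hc := card_le_ind π (Finset.univ.image (fun i : Fin n => f.symm (b, i))) ?_
    · rw [Finset.card_image_of_injective _ hinj, Finset.card_univ, Fintype.card_fin] at hc
      omega
    · intro x hx hx'
      obtain ⟨j, -, rfl⟩ := Finset.mem_image.1 hx
      obtain ⟨l, -, hl⟩ := Finset.mem_image.1 hx'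
      have h2 := congrArg f hl
      rw [hs b j] at h2
      simp only [Equiv.apply_symm_apply, Prod.mk.injEq] at h2
      exact hb h2.1.symm
  · push Not at hb
    have : ∃ b, g b ≠ 1 := by
      by_contra hall
      push Not at hall
      apply h1
      ext x
      obtain ⟨⟨b, j⟩, rfl⟩ := f.symm.surjective x
      have h2 := hs b j
      rw [hb b, hall b] at h2
      have h3 : π (f.symm (b, j)) = f.symm (b, j) := f.injective (by rw [h2]; simp)
      rw [h3]
      rfl
    obtain ⟨b, hgb⟩ := this
    refine (hi (g b) (hg b) hgb).trans ?_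
    refine ind_le_of_embed (fun j : Fin n => f.symm (b, j)) ?_ (g b) π ?_
    · intro i j hij
      have := f.symm.injective hij
      simpa using this
    · intro j
      have h2 := hs b j
      rw [hb b] at h2
      rw [← h2]
      simp

end Pool.Agent.X308.W
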