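import Pool.Agent.X308.W.Count

/-!
# Reduction of the upper half of the weak form of Malle's conjecture to `ℚ`, uniformly
-/

set_option autoImplicit false

namespace Pool.Agent.X308.W

open NumberField

/-- An isomorphism of fields of characteristic `0` is `ℚ`-linear. -/
def ratEquiv {L L' : Type} [Field L] [Field L'] [Algebra ℚ L] [Algebra ℚ L'] (r : L ≃+* L') :
    L ≃ₐ[ℚ] L' :=
  AlgEquiv.ofRingEquiv (f := r) (fun q => by
    have h1 : algebraMap ℚ L q = (q : L) := eq_ratCast _ q
    have h2 : algebraMap ℚ L' q = (q : L') := eq_ratCast _ q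
    rw [h1, h2, map_ratCast])

theorem one_disc (d : ℕ) : ((|NumberField.discr ℚ| : ℤ) : ℝ) ^ d = 1 := by
  rw [Rat.numberField_discr]; simp

section towers

variable {m n : ℕ} {A : Subgroup (Equiv.Perm (Fin m))} {G : Subgroup (Equiv.Perm (Fin n))}

theorem exists_group {k K L Ω : Type} [Field k] [Field K] [Field L] [Field Ω] [Algebra k K]
    [Algebra k L] [Algebra k Ω] [Algebra K L] [Algebra K Ω] [IsScalarTower k K L]
    [IsScalarTower k K Ω] [Normal k Ω] [IsAlgClosed Ω] [CharZero k] [FiniteDimensional k L]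
    (hA : HasGroup k K Ω A) (hG : HasGroup K L Ω G) (hm : Module.finrank k K = m)
    (hn : Module.finrank K L = n) :
    Module.finrank k L = m * n ∧ ∃ H : Subgroup (Equiv.Perm (Fin (m * n))),
      Transitive H ∧ InWreath A G H ∧ HasGroup k L Ω H := by
  have h1 : Module.finrank k L = m * n := by
    rw [← Module.finrank_mul_finrank k K L, hm, hn]
  have h2 : Fintype.card (L →ₐ[k] Ω) = m * n := by
    rw [AlgHom.card k L Ω, h1]
  let e := Fintype.equivFinOfCardEq h2
  exact ⟨h1, groupOf e, fun i j => transitive_groupOf e i j, inWreath hA hG e,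
    hasGroup_groupOf e⟩

/-- The fields counted over `K` are counted over `ℚ`, with groups inside `G ≀ A`. -/
theorem fields_mapsTo (K : Type) [Field K] [NumberField K] (hm : Module.finrank ℚ K = m)
    (hA : HasGroup ℚ K (AlgebraicClosure ℚ) A) (X : ℝ) :
    ∃ Φ : IntermediateField K (AlgebraicClosure K) → IntermediateField ℚ (AlgebraicClosure ℚ),
      Function.Injective Φ ∧ ∀ L ∈ fields K G X,
        ∃ H : Subgroup (Equiv.Perm (Fin (m * n))), (Transitive H ∧ InWreath A G H) ∧
          Φ L ∈ fields ℚ H (X * ((|NumberField.discr K| : ℤ) : ℝ) ^ n) := by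
  have hac : IsAlgClosure ℚ (AlgebraicClosure K) :=
    ⟨inferInstance, Algebra.IsAlgebraic.trans ℚ K (AlgebraicClosure K)⟩
  have hno : Normal ℚ (AlgebraicClosure K) := IsAlgClosure.normal ℚ _
  let v : AlgebraicClosure K ≃ₐ[ℚ] AlgebraicClosure ℚ :=
    IsAlgClosure.equiv ℚ (AlgebraicClosure K) (AlgebraicClosure ℚ)
  refine ⟨fun L => (L.restrictScalars ℚ).map v.toAlgHom, ?_, ?_⟩
  · intro L L' h
    apply IntermediateField.restrictScalars_injective ℚ
    ext x
    have h1 : v x ∈ (L.restrictScalars ℚ).map v.toAlgHom ↔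
        v x ∈ (L'.restrictScalars ℚ).map v.toAlgHom := by
      have : (L.restrictScalars ℚ).map v.toAlgHom = (L'.restrictScalars ℚ).map v.toAlgHom := h
      rw [this]
    constructor
    · intro hx
      obtain ⟨y, hy, hxy⟩ := h1.1 ⟨x, hx, rfl⟩
      have : y = x := v.injective hxy
      rwa [← this]
    · intro hx
      obtain ⟨y, hy, hxy⟩ := h1.2 ⟨x, hx, rfl⟩
      have : y = x := v.injective hxy
      rwa [← this]
  · rintro L ⟨hn, hG, hL, hX⟩
    have hA' : HasGroup ℚ K (AlgebraicClosure K) A := hA.congr AlgEquiv.refl v.symm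
    have hfin : FiniteDimensional ℚ L := hL.to_finiteDimensional
    obtain ⟨hd, H, hH1, hH2, hH3⟩ := exists_group hA' hG hm hn
    refine ⟨H, ⟨hH1, hH2⟩, ?_⟩
    let r0 : L ≃+* L.restrictScalars ℚ :=
      { toFun := fun x => ⟨x.1, x.2⟩
        invFun := fun x => ⟨x.1, x.2⟩
        left_inv := fun _ => rfl
        right_inv := fun _ => rfl
        map_mul' := fun _ _ => rfl
        map_add' := fun _ _ => rfl }
    let r : L ≃+* (L.restrictScalars ℚ).map v.toAlgHom :=
      r0.trans (IntermediateField.intermediateFieldMap v (L.restrictScalars ℚ)).toRingEquiv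
    have hL' : NumberField ((L.restrictScalars ℚ).map v.toAlgHom) := NumberField.of_ringEquiv _ _ r
    refine ⟨?_, hH3.congr (ratEquiv r) v, hL', ?_⟩
    · rw [← hd]
      exact (ratEquiv r).symm.toLinearEquiv.finrank_eq
    · have h3 := NumberField.discr_eq_discr_of_ringEquiv L r
      change ((|NumberField.discr ((L.restrictScalars ℚ).map v.toAlgHom)| : ℤ) : ℝ) ≤ _
      rw [← h3, one_disc, mul_one]
      exact hX

/-- The second fields of the towers are counted over `ℚ`, with groups inside `G ≀ A`. -/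
theorem towers_mapsTo (X : ℝ) (P : IntermediateField ℚ (AlgebraicClosure ℚ) ×
    IntermediateField ℚ (AlgebraicClosure ℚ)) (hP : P ∈ towers A G X) :
    ∃ H : Subgroup (Equiv.Perm (Fin (m * n))), (Transitive H ∧ InWreath A G H) ∧
      P.2 ∈ fields ℚ H X := by
  obtain ⟨h, hm, hA, hn, hG, hL, hX⟩ := hP
  let r : IntermediateField.extendScalars h ≃+* P.2 :=
    { toFun := fun x => ⟨x.1, x.2⟩
      invFun := fun x => ⟨x.1, x.2⟩
      left_inv := fun _ => rfl
      right_inv := fun _ => rfl
      map_mul' := fun _ _ => rfl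
      map_add' := fun _ _ => rfl }
  have hL2 : NumberField (IntermediateField.extendScalars h) := NumberField.of_ringEquiv _ _ r.symm
  have hfin : FiniteDimensional ℚ (IntermediateField.extendScalars h) := hL2.to_finiteDimensional
  obtain ⟨hd, H, hH1, hH2, hH3⟩ := exists_group hA hG hm hn
  refine ⟨H, ⟨hH1, hH2⟩, ?_, hH3.congr (ratEquiv r) AlgEquiv.refl, hL, ?_⟩
  · rw [← hd]
    exact (ratEquiv r).symm.toLinearEquiv.finrank_eq
  · rw [one_disc, mul_one]
    exact hX

end towers

end Pool.Agent.X308.W
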