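import Pool.Agent.X308.W.Beta

/-!
# Towers of permutation groups: the number of classes of least index does not grow
-/

set_option autoImplicit false

namespace Pool.Agent.X308.W

/-- `H` is contained in the wreath product `G ≀ A` (up to numbering), and the stabiliser of each
block induces the whole of `G` on it. -/
def TowerGroup {m n d : ℕ} (A : Subgroup (Equiv.Perm (Fin m))) (G : Subgroup (Equiv.Perm (Fin n)))
    (H : Subgroup (Equiv.Perm (Fin d))) : Prop :=
  ∃ f : Fin d ≃ Fin m × Fin n,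
    (∀ π ∈ H, ∃ s ∈ A, ∃ g : Fin m → Equiv.Perm (Fin n),
      (∀ b, g b ∈ G) ∧ ∀ b i, f (π (f.symm (b, i))) = (s b, g b i)) ∧
    ∀ b, ∀ x ∈ G, ∃ π ∈ H, ∀ i, f (π (f.symm (b, i))) = (b, x i)

theorem TowerGroup.inWreath {m n d : ℕ} {A : Subgroup (Equiv.Perm (Fin m))}
    {G : Subgroup (Equiv.Perm (Fin n))} {H : Subgroup (Equiv.Perm (Fin d))}
    (h : TowerGroup A G H) : InWreath A G H := ⟨h.choose, h.choose_spec.1⟩

section

variable {m n d : ℕ} {A : Subgroup (Equiv.Perm (Fin m))}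
    {G : Subgroup (Equiv.Perm (Fin n))} {H : Subgroup (Equiv.Perm (Fin d))}

theorem block_injective (f : Fin d ≃ Fin m × Fin n) (b : Fin m) :
    Function.Injective (fun j : Fin n => f.symm (b, j)) := by
  intro i j hij
  have := f.symm.injective hij
  simpa using this

/-- An element of least index lives on one block. -/
theorem single (f : Fin d ≃ Fin m × Fin n)
    (hf : ∀ π ∈ H, ∃ s ∈ A, ∃ g : Fin m → Equiv.Perm (Fin n),
      (∀ b, g b ∈ G) ∧ ∀ b i, f (π (f.symm (b, i))) = (s b, g b i))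
    {i : ℕ} (hi : ∀ g ∈ G, g ≠ 1 → i ≤ ind g) (hin : i < n) {h : Equiv.Perm (Fin d)}
    (hh : h ∈ H) (h1 : h ≠ 1) (hi2 : ind h = i) :
    ∃ b : Fin m, ∃ g : Equiv.Perm (Fin n), g ∈ G ∧ g ≠ 1 ∧ ind g = i ∧
      (∀ j, h (f.symm (b, j)) = f.symm (b, g j)) ∧
      ∀ c j, c ≠ b → h (f.symm (c, j)) = f.symm (c, j) := by
  classical
  obtain ⟨s, -, g, hg, hs⟩ := hf h hh
  have hs1 : ∀ c, s c = c := by
    intro b
    by_contra hb
    have hc := card_le_ind h (Finset.univ.image (fun i : Fin n => f.symm (b, i))) ?_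
    · rw [Finset.card_image_of_injective _ (block_injective f b), Finset.card_univ,
        Fintype.card_fin] at hc
      omega
    · intro x hx hx'
      obtain ⟨j, -, rfl⟩ := Finset.mem_image.1 hx
      obtain ⟨l, -, hl⟩ := Finset.mem_image.1 hx'
      have h2 := congrArg f hl
      rw [hs b j] at h2
      simp only [Equiv.apply_symm_apply, Prod.mk.injEq] at h2
      exact hb h2.1.symm
  have hs2 : ∀ b j, h (f.symm (b, j)) = f.symm (b, g b j) := by
    intro b j
    apply f.injective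
    rw [hs b j, hs1 b]
    simp
  have : ∃ b, g b ≠ 1 := by
    by_contra hall
    push Not at hall
    apply h1
    refine Equiv.ext fun x => ?_
    obtain ⟨⟨b, j⟩, rfl⟩ := f.symm.surjective x
    rw [hs2, hall b]
    rfl
  obtain ⟨b, hgb⟩ := this
  obtain ⟨u, hu1, hu2, hu3⟩ := ind_embed_add (fun j : Fin n => f.symm (b, j))
    (block_injective f b) (g b) h (fun j => hs2 b j)
  have h3 := hi (g b) (hg b) hgb
  have h4 : ind (u⁻¹ * h) = 0 := by omega
  have h5 : u⁻¹ * h = 1 := by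
    by_contra hne
    have := ind_pos hne
    omega
  have h6 : h = u := by
    rw [inv_mul_eq_one] at h5
    exact h5.symm
  refine ⟨b, g b, hg b, hgb, by omega, fun j => hs2 b j, fun c j hc => ?_⟩
  rw [h6]
  refine hu2 _ ?_
  rintro ⟨l, hl⟩
  have := f.symm.injective hl
  simp only [Prod.mk.injEq] at this
  exact hc this.1.symm

theorem pow_single (f : Fin d ≃ Fin m × Fin n) {h : Equiv.Perm (Fin d)} {b : Fin m}
    {g : Equiv.Perm (Fin n)} (hg : ∀ j, h (f.symm (b, j)) = f.symm (b, g j)) (a : ℕ) (j : Fin n) :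
    (h ^ a) (f.symm (b, j)) = f.symm (b, (g ^ a) j) := by
  induction a generalizing j with
  | zero => simp
  | succ a ih => rw [pow_succ, pow_succ, Equiv.Perm.mul_apply, Equiv.Perm.mul_apply, hg, ih]

theorem pow_fix (f : Fin d ≃ Fin m × Fin n) {h : Equiv.Perm (Fin d)} {b : Fin m}
    (hg : ∀ c j, c ≠ b → h (f.symm (c, j)) = f.symm (c, j)) (a : ℕ) (c : Fin m) (j : Fin n)
    (hc : c ≠ b) : (h ^ a) (f.symm (c, j)) = f.symm (c, j) := by
  induction a with
  | zero => simp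
  | succ a ih => rw [pow_succ, Equiv.Perm.mul_apply, hg c j hc, ih]

/-- Conjugation of elements which live on one block. -/
theorem conj_single (hH : Transitive H) (f : Fin d ≃ Fin m × Fin n) (hn : 0 < n)
    (hf : ∀ π ∈ H, ∃ s ∈ A, ∃ g : Fin m → Equiv.Perm (Fin n),
      (∀ b, g b ∈ G) ∧ ∀ b i, f (π (f.symm (b, i))) = (s b, g b i))
    (hf2 : ∀ b, ∀ x ∈ G, ∃ π ∈ H, ∀ i, f (π (f.symm (b, i))) = (b, x i))
    {h h' : Equiv.Perm (Fin d)} {b b' : Fin m} {g g' : Equiv.Perm (Fin n)}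
    (hg : ∀ j, h (f.symm (b, j)) = f.symm (b, g j))
    (hg2 : ∀ c j, c ≠ b → h (f.symm (c, j)) = f.symm (c, j))
    (hg' : ∀ j, h' (f.symm (b', j)) = f.symm (b', g' j))
    (hg2' : ∀ c j, c ≠ b' → h' (f.symm (c, j)) = f.symm (c, j))
    {x : Equiv.Perm (Fin n)} (hx : x ∈ G) (a : ℕ) (hc : g' = x * g ^ a * x⁻¹) :
    ∃ y ∈ H, h' = y * h ^ a * y⁻¹ := by
  obtain ⟨t, ht, ht1⟩ := hH (f.symm (b, ⟨0, hn⟩)) (f.symm (b', ⟨0, hn⟩))
  obtain ⟨s, -, q, hq, hs⟩ := hf t ht
  have hsb : s b = b' := by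
    have := hs b ⟨0, hn⟩
    rw [ht1] at this
    simp only [Equiv.apply_symm_apply, Prod.mk.injEq] at this
    exact this.1.symm
  obtain ⟨z, hz, hz1⟩ := hf2 b' (x * (q b)⁻¹) (G.mul_mem hx (G.inv_mem (hq b)))
  obtain ⟨y, hyH, hy⟩ : ∃ y ∈ H, ∀ j, y (f.symm (b, j)) = f.symm (b', x j) := by
    refine ⟨z * t, H.mul_mem hz ht, fun j => ?_⟩
    have h1 : t (f.symm (b, j)) = f.symm (b', q b j) := by
      apply f.injective
      rw [hs b j, hsb]
      simp
    rw [Equiv.Perm.mul_apply, h1]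
    apply f.injective
    rw [hz1]
    simp
  refine ⟨y, hyH, ?_⟩
  rw [eq_mul_inv_iff_mul_eq]
  refine Equiv.ext fun p => ?_
  obtain ⟨⟨c, j⟩, rfl⟩ := f.symm.surjective p
  rw [Equiv.Perm.mul_apply, Equiv.Perm.mul_apply]
  by_cases hcb : c = b
  · subst hcb
    rw [hy, hg', pow_single f hg, hy, hc]
    simp
  · rw [pow_fix f hg2 a c j hcb]
    obtain ⟨⟨c', j'⟩, hp⟩ := f.symm.surjective (y (f.symm (c, j)))
    rw [← hp]
    refine hg2' c' j' ?_
    rintro rfl
    apply hcb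
    have h2 : y (f.symm (b, x⁻¹ j')) = y (f.symm (c, j)) := by
      rw [hy, ← hp]
      simp
    have h3 := f.symm.injective (y.injective h2)
    simp only [Prod.mk.injEq] at h3
    exact h3.1.symm

/-- **`β` does not grow** along towers of the same least index. -/
theorem β_le (k : Type) [Field k] [CharZero k] (hn : 2 ≤ n) (hG : Transitive G)
    (hH : Transitive H) (h : TowerGroup A G H) (hm : minInd H = minInd G) : β k H ≤ β k G := by
  classical
  obtain ⟨f, hf, hf2⟩ := h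
  have hi : ∀ g ∈ G, g ≠ 1 → minInd G ≤ ind g := fun g hg hg1 =>
    Nat.sInf_le (show ind g ∈ {j : ℕ | ∃ g ∈ G, g ≠ 1 ∧ j = ind g} from ⟨g, hg, hg1, rfl⟩)
  have hin : minInd G < n := by
    obtain ⟨g, -, -, hg⟩ := Nat.sInf_mem (set_nonempty hn hG)
    have := ind_lt g (by simp; omega)
    simp at this
    unfold minInd
    omega
  have key : ∀ h : {h : Equiv.Perm (Fin d) // h ∈ H ∧ h ≠ 1 ∧ ind h = minInd H},
      ∃ b : Fin m, ∃ g : {g : Equiv.Perm (Fin n) // g ∈ G ∧ g ≠ 1 ∧ ind g = minInd G},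
        (∀ j, h.1 (f.symm (b, j)) = f.symm (b, g.1 j)) ∧
        ∀ c j, c ≠ b → h.1 (f.symm (c, j)) = f.symm (c, j) := by
    rintro ⟨h, hh, h1, h2⟩
    obtain ⟨b, g, hg, hg1, hg2, h3, h4⟩ := single f hf hi hin hh h1 (h2.trans hm)
    exact ⟨b, ⟨g, hg, hg1, hg2⟩, h3, h4⟩
  choose B F hF1 hF2 using key
  unfold β
  refine Nat.card_le_card_of_injective
    (fun q => Quot.mk (fun g h : {g : Equiv.Perm (Fin n) //
      g ∈ G ∧ g ≠ 1 ∧ ind g = minInd G} => KConj k G g.1 h.1) (F (Quot.out q))) ?_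
  intro q q' hqq
  have h1 := (mk_eq_iff _ _).1 hqq
  obtain ⟨σ, a, ha, x, hx, hc⟩ := h1
  obtain ⟨a', ha'⟩ := exists_exponent (K := k) (card_ne_zero' H) σ
  set g := (F (Quot.out q)).1 with hgdef
  have ho1 : orderOf g ∣ Nat.card G :=
    orderOf_dvd_of_pow_eq_one (pow_card' (F (Quot.out q)).2.1)
  have ho2 : orderOf g ∣ Nat.card H := by
    refine orderOf_dvd_of_pow_eq_one (Equiv.ext fun j => ?_)
    have h2 := pow_single f (hF1 (Quot.out q)) (Nat.card H) j
    rw [pow_card' (Quot.out q).2.1] at h2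
    have h3 := f.symm.injective h2
    simp only [Prod.mk.injEq, true_and] at h3
    exact h3.symm
  have hmod : a ≡ a' [MOD orderOf g] := by
    refine modEq_of_pow (K := k) (orderOf_pos g).ne' fun ζ hζ => ?_
    have h2 : ζ ^ Nat.card G = 1 := by
      obtain ⟨r, hr⟩ := ho1
      rw [hr, pow_mul, hζ, one_pow]
    have h3 : ζ ^ Nat.card H = 1 := by
      obtain ⟨r, hr⟩ := ho2
      rw [hr, pow_mul, hζ, one_pow]
    rw [← ha ζ h2, ha' ζ h3]
  have hpow : g ^ a = g ^ a' := pow_eq_pow_iff_modEq.2 hmod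
  rw [hpow] at hc
  obtain ⟨y, hy, hy2⟩ := conj_single hH f (by omega) hf hf2 (hF1 (Quot.out q)) (hF2 (Quot.out q))
    (hF1 (Quot.out q')) (hF2 (Quot.out q')) hx a' hc
  have h4 : Quot.mk (fun g h : {g : Equiv.Perm (Fin d) //
      g ∈ H ∧ g ≠ 1 ∧ ind g = minInd H} => KConj k H g.1 h.1) (Quot.out q) =
      Quot.mk _ (Quot.out q') := Quot.sound ⟨σ, a', ha', y, hy, hy2⟩
  rwa [Quot.out_eq, Quot.out_eq] at h4

end

end Pool.Agent.X308.W
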